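import Pool.Agent.Helper13.FZ.Lines

/-!
# Project FZ, M-part: lines of given axis close to a given line

Two lines over different axes stay close only along a bounded part (`overlap`): if `x₁, x₂` are on one slanted line
near the leaf and `y₁, y₂` are on lines of the same type `b'` with the same `pr cj`, which does not commute with the
one of `x₁`, and `x_i⁻¹ y_i ∈ S`, then `y₁⁻¹ y₂` is in a finite set depending on `B, S, N` only.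
-/

set_option autoImplicit false

namespace Pool.Agent.Helper13.FZ

variable {G : Type*} [Group G] {α : Type*}

/-- the conjugators of pairs of elements of a finite set which do not commute -/
theorem finite_conjugators (U : Finset (FreeGroup α)) :
    {θ : FreeGroup α | ∃ u ∈ U, ∃ u' ∈ U, ¬ Commute u u' ∧ θ⁻¹ * u * θ ∈ U ∧
      θ⁻¹ * u' * θ ∈ U}.Finite := by
  classical
  have h1 : {θ : FreeGroup α | ∃ u ∈ U, ∃ u' ∈ U, ¬ Commute u u' ∧ θ⁻¹ * u * θ ∈ U ∧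
      θ⁻¹ * u' * θ ∈ U} ⊆ ⋃ p ∈ (U ×ˢ U ×ˢ U ×ˢ U : Finset _),
      {θ : FreeGroup α | ¬ Commute p.1 p.2.1 ∧ θ⁻¹ * p.1 * θ = p.2.2.1 ∧
        θ⁻¹ * p.2.1 * θ = p.2.2.2} := by
    rintro θ ⟨u, hu, u', hu', hc, h1, h2⟩
    simp only [Set.mem_iUnion]
    refine ⟨(u, u', θ⁻¹ * u * θ, θ⁻¹ * u' * θ), ?_, hc, rfl, rfl⟩
    simp only [Finset.mem_product]
    exact ⟨hu, hu', h1, h2⟩
  refine Set.Finite.subset (Set.Finite.biUnion (Finset.finite_toSet _) fun p _ => ?_) h1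
  apply Set.Subsingleton.finite
  rintro θ ⟨hc, h1, h2⟩ θ' ⟨-, h1', h2'⟩
  have key : ∀ u c : FreeGroup α, θ⁻¹ * u * θ = c → θ'⁻¹ * u * θ' = c →
      Commute (θ' * θ⁻¹) u := by
    intro u c h3 h4
    have h5 : θ' * θ⁻¹ * u * (θ' * θ⁻¹)⁻¹ = u := by
      calc θ' * θ⁻¹ * u * (θ' * θ⁻¹)⁻¹ = θ' * (θ⁻¹ * u * θ) * θ'⁻¹ := by group
        _ = θ' * (θ'⁻¹ * u * θ') * θ'⁻¹ := by rw [h3, h4]
        _ = u := by group
    exact mul_inv_eq_iff_eq_mul.1 h5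
  by_contra hne
  have h3 : θ' * θ⁻¹ ≠ 1 := by
    intro h4
    exact hne (mul_inv_eq_one.1 h4).symm
  exact hc (MC.commute_trans h3 (key _ _ h1 h1').symm (key _ _ h2 h2'))

variable {L : Subgroup G} {a : G} {pr : G → FreeGroup α} {ht : G → ℤ}

/-- along a slanted line `pr` determines the point -/
theorem finite_exponents (hE : Emb L a pr ht) (N : ℤ) (B : Finset G)
    (Θ : Set (FreeGroup α)) (hΘ : Θ.Finite) :
    {t : ℤ | ∃ b ∈ B, ∃ b' ∈ B, b * a ^ N * b⁻¹ ∈ L ∧ pr (b * a ^ N * b⁻¹) ≠ 1 ∧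
      b * a ^ t * b'⁻¹ ∈ L ∧ pr (b * a ^ t * b'⁻¹) ∈ Θ}.Finite := by
  classical
  have h1 : {t : ℤ | ∃ b ∈ B, ∃ b' ∈ B, b * a ^ N * b⁻¹ ∈ L ∧ pr (b * a ^ N * b⁻¹) ≠ 1 ∧
      b * a ^ t * b'⁻¹ ∈ L ∧ pr (b * a ^ t * b'⁻¹) ∈ Θ} ⊆ ⋃ p ∈ (B ×ˢ B : Finset _),
      {t : ℤ | (p.1 * a ^ N * p.1⁻¹ ∈ L ∧ pr (p.1 * a ^ N * p.1⁻¹) ≠ 1) ∧
        p.1 * a ^ t * p.2⁻¹ ∈ L ∧ pr (p.1 * a ^ t * p.2⁻¹) ∈ Θ} := by
    rintro t ⟨b, hb, b', hb', h1, h2, h3, h4⟩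
    simp only [Set.mem_iUnion]
    refine ⟨(b, b'), ?_, ⟨h1, h2⟩, h3, h4⟩
    exact Finset.mem_product.2 ⟨hb, hb'⟩
  refine Set.Finite.subset (Set.Finite.biUnion (Finset.finite_toSet _) fun p _ => ?_) h1
  obtain ⟨b, b'⟩ := p
  simp only
  refine Set.Finite.of_finite_image (f := fun t => pr (b * a ^ t * b'⁻¹)) (hΘ.subset ?_) ?_
  · rintro _ ⟨t, ht, rfl⟩
    exact ht.2.2
  · rintro t ⟨⟨h2, h3⟩, h4, -⟩ t' ⟨-, h4', -⟩ he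
    simp only at he
    -- the quotient
    have h5 : b * a ^ (t - t') * b⁻¹ ∈ L := by
      have := L.mul_mem h4 (L.inv_mem h4')
      have e : b * a ^ t * b'⁻¹ * (b * a ^ t' * b'⁻¹)⁻¹ = b * a ^ (t - t') * b⁻¹ := by
        rw [zpow_sub]
        group
      rwa [e] at this
    have h6 : pr (b * a ^ (t - t') * b⁻¹) = 1 := by
      have e : b * a ^ (t - t') * b⁻¹ = b * a ^ t * b'⁻¹ * (b * a ^ t' * b'⁻¹)⁻¹ := by
        rw [zpow_sub]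
        group
      rw [e, hE.pr_mul _ h4 _ (L.inv_mem h4'), hE.pr_inv h4', he, mul_inv_cancel]
    have h7 : pr (b * a ^ N * b⁻¹) ^ (t - t') = 1 := by
      rw [← hE.pr_zpow h2]
      have e : (b * a ^ N * b⁻¹) ^ (t - t') = (b * a ^ (t - t') * b⁻¹) ^ N := by
        rw [conj_zpow, conj_zpow, ← zpow_mul, ← zpow_mul, mul_comm]
      rw [e, hE.pr_zpow h5, h6, one_zpow]
    by_contra hne
    exact h3 (MC.free_torsion (sub_ne_zero.2 hne) h7)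

/-- bounded overlap, and common points of the displacement sets -/
theorem overlap (hE : Emb L a pr ht) (N : ℤ) (B S : Finset G) :
    ∃ (U : Finset (FreeGroup α)) (Q : Finset G),
    (∀ g x y b b', b ∈ B → b' ∈ B → Nr L b g x → Nr L b' g y → x⁻¹ * y ∈ S →
      cj a N g x ∈ L → cj a N g y ∈ L → ∃ v : FreeGroup α, v⁻¹ * pr (cj a N g x) * v ∈ U ∧
        v⁻¹ * pr (cj a N g y) * v ∈ U) ∧
    ∀ g x₁ x₂ y₁ y₂ b₁ b₂ b', b₁ ∈ B → b₂ ∈ B → b' ∈ B → Nr L b₁ g x₁ → Nr L b₂ g x₂ →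
      Nr L b' g y₁ → Nr L b' g y₂ → SL a x₁ x₂ → x₁⁻¹ * y₁ ∈ S → x₂⁻¹ * y₂ ∈ S →
      cj a N g x₁ ∈ L → cj a N g y₁ ∈ L → cj a N g y₂ ∈ L → pr (cj a N g y₁) = pr (cj a N g y₂) →
      ¬ Commute (pr (cj a N g x₁)) (pr (cj a N g y₁)) → y₁⁻¹ * y₂ ∈ Q := by
  classical
  set K : Finset G := (B ×ˢ S ×ˢ B).image (fun p => p.1 * p.2.1 * p.2.2⁻¹) with hK
  set U : Finset (FreeGroup α) := ((insert 1 K) ×ˢ B).image
    (fun p => pr p.1 * pr (p.2 * a ^ N * p.2⁻¹) * (pr p.1)⁻¹) with hU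
  set Θ : Set (FreeGroup α) := {θ : FreeGroup α | ∃ u ∈ U, ∃ u' ∈ U, ¬ Commute u u' ∧
    θ⁻¹ * u * θ ∈ U ∧ θ⁻¹ * u' * θ ∈ U} with hΘ
  have hΘf : Θ.Finite := finite_conjugators U
  set A : Finset ℤ := (finite_exponents hE N B Θ hΘf).toFinset with hA
  set Q : Finset G := (S ×ˢ A ×ˢ S).image (fun p => p.1⁻¹ * a ^ p.2.1 * p.2.2) with hQ
  -- the two conjugates at the vertex of `x`
  have key : ∀ g x y b b', b ∈ B → b' ∈ B → Nr L b g x → Nr L b' g y → x⁻¹ * y ∈ S →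
      cj a N g x ∈ L → cj a N g y ∈ L →
      (pr (g⁻¹ * x * b⁻¹))⁻¹ * pr (cj a N g x) * pr (g⁻¹ * x * b⁻¹) = pr (b * a ^ N * b⁻¹) ∧
      (pr (g⁻¹ * x * b⁻¹))⁻¹ * pr (cj a N g x) * pr (g⁻¹ * x * b⁻¹) ∈ U ∧
      (pr (g⁻¹ * x * b⁻¹))⁻¹ * pr (cj a N g y) * pr (g⁻¹ * x * b⁻¹) ∈ U := by
    intro g x y b b' hb hb' hx hy hs hcx hcy
    have hbL : b * a ^ N * b⁻¹ ∈ L := (cj_mem_iff hx).1 hcx
    have hbL' : b' * a ^ N * b'⁻¹ ∈ L := (cj_mem_iff hy).1 hcy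
    have h0 : g⁻¹ * x * b⁻¹ ∈ L := hx
    have h1 : pr (cj a N g x) = pr (g⁻¹ * x * b⁻¹) * pr (b * a ^ N * b⁻¹) *
        (pr (g⁻¹ * x * b⁻¹))⁻¹ := by
      rw [cj_eq a N g x b, hE.pr_conj h0 hbL]
    have h2 : (pr (g⁻¹ * x * b⁻¹))⁻¹ * pr (cj a N g x) * pr (g⁻¹ * x * b⁻¹) =
        pr (b * a ^ N * b⁻¹) := by
      rw [h1]
      group
    refine ⟨h2, ?_, ?_⟩
    · rw [h2]
      refine Finset.mem_image.2 ⟨(1, b), Finset.mem_product.2 ⟨Finset.mem_insert_self _ _, hb⟩, ?_⟩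
      simp only
      rw [hE.pr_one]
      group
    · set κ := b * (x⁻¹ * y) * b'⁻¹ with hκ
      have hκe : κ = (g⁻¹ * x * b⁻¹)⁻¹ * (g⁻¹ * y * b'⁻¹) := by
        rw [hκ]
        group
      have hκL : κ ∈ L := by
        rw [hκe]
        exact L.mul_mem (L.inv_mem h0) hy
      have hy' : g⁻¹ * y * b'⁻¹ ∈ L := hy
      have h3 : pr (cj a N g y) = pr (g⁻¹ * y * b'⁻¹) * pr (b' * a ^ N * b'⁻¹) *
          (pr (g⁻¹ * y * b'⁻¹))⁻¹ := by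
        rw [cj_eq a N g y b', hE.pr_conj hy' hbL']
      have h4 : pr κ = (pr (g⁻¹ * x * b⁻¹))⁻¹ * pr (g⁻¹ * y * b'⁻¹) := by
        rw [hκe, hE.pr_mul _ (L.inv_mem h0) _ hy', hE.pr_inv h0]
      refine Finset.mem_image.2 ⟨(κ, b'), Finset.mem_product.2
        ⟨Finset.mem_insert_of_mem (Finset.mem_image.2 ⟨(b, x⁻¹ * y, b'), ?_, rfl⟩), hb'⟩, ?_⟩
      · simp only [Finset.mem_product]
        exact ⟨hb, hs, hb'⟩
      · simp only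
        rw [h3, h4]
        group
  refine ⟨U, Q, ?_, ?_⟩
  · intro g x y b b' hb hb' hx hy hs hcx hcy
    obtain ⟨-, h1, h2⟩ := key g x y b b' hb hb' hx hy hs hcx hcy
    exact ⟨_, h1, h2⟩
  · intro g x₁ x₂ y₁ y₂ b₁ b₂ b' hb₁ hb₂ hb' hx₁ hx₂ hy₁ hy₂ hsl hs₁ hs₂ hcx hcy₁ hcy₂ heq hnc
    have hcx₂ : cj a N g x₂ ∈ L := by
      rw [← cj_sl hsl]
      exact hcx
    obtain ⟨e₁, k₁, k₁'⟩ := key g x₁ y₁ b₁ b' hb₁ hb' hx₁ hy₁ hs₁ hcx hcy₁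
    obtain ⟨e₂, k₂, k₂'⟩ := key g x₂ y₂ b₂ b' hb₂ hb' hx₂ hy₂ hs₂ hcx₂ hcy₂
    rw [← cj_sl hsl] at k₂
    rw [← heq] at k₂'
    set v₁ := pr (g⁻¹ * x₁ * b₁⁻¹) with hv₁
    set v₂ := pr (g⁻¹ * x₂ * b₂⁻¹) with hv₂
    set ω := pr (cj a N g x₁) with hω
    set ω' := pr (cj a N g y₁) with hω'
    have h1 : g⁻¹ * x₁ * b₁⁻¹ ∈ L := hx₁
    have h2 : g⁻¹ * x₂ * b₂⁻¹ ∈ L := hx₂
    obtain ⟨t, rfl⟩ := hsl
    have h3 : (g⁻¹ * x₁ * b₁⁻¹)⁻¹ * (g⁻¹ * (x₁ * a ^ t) * b₂⁻¹) = b₁ * a ^ t * b₂⁻¹ := by group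
    have h4 : b₁ * a ^ t * b₂⁻¹ ∈ L := by
      rw [← h3]
      exact L.mul_mem (L.inv_mem h1) h2
    have h5 : pr (b₁ * a ^ t * b₂⁻¹) = v₁⁻¹ * v₂ := by
      rw [← h3, hE.pr_mul _ (L.inv_mem h1) _ h2, hE.pr_inv h1]
    have hθ : v₁⁻¹ * v₂ ∈ Θ := by
      refine ⟨v₁⁻¹ * ω * v₁, k₁, v₁⁻¹ * ω' * v₁, k₁', ?_, ?_, ?_⟩
      · intro hc
        apply hnc
        have h6 := (Commute.conj_iff v₁).2 hc
        have e1 : v₁ * (v₁⁻¹ * ω * v₁) * v₁⁻¹ = ω := by group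
        have e2 : v₁ * (v₁⁻¹ * ω' * v₁) * v₁⁻¹ = ω' := by group
        rwa [e1, e2] at h6
      · have e1 : (v₁⁻¹ * v₂)⁻¹ * (v₁⁻¹ * ω * v₁) * (v₁⁻¹ * v₂) = v₂⁻¹ * ω * v₂ := by group
        rw [e1]
        exact k₂
      · have e1 : (v₁⁻¹ * v₂)⁻¹ * (v₁⁻¹ * ω' * v₁) * (v₁⁻¹ * v₂) = v₂⁻¹ * ω' * v₂ := by group
        rw [e1]
        exact k₂'
    have hbL : b₁ * a ^ N * b₁⁻¹ ∈ L := (cj_mem_iff hx₁).1 hcx
    have hb1 : pr (b₁ * a ^ N * b₁⁻¹) ≠ 1 := by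
      intro h6
      apply hnc
      have h7 : ω = 1 := by
        rw [h6] at e₁
        calc ω = v₁ * (v₁⁻¹ * ω * v₁) * v₁⁻¹ := by group
          _ = 1 := by rw [e₁]; group
      rw [h7]
      exact Commute.one_left _
    have htA : t ∈ A := by
      rw [hA, Set.Finite.mem_toFinset]
      refine ⟨b₁, hb₁, b₂, hb₂, hbL, hb1, h4, ?_⟩
      rw [h5]
      exact hθ
    refine Finset.mem_image.2 ⟨(x₁⁻¹ * y₁, t, (x₁ * a ^ t)⁻¹ * y₂), ?_, ?_⟩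
    · simp only [Finset.mem_product]
      exact ⟨hs₁, htA, hs₂⟩
    · simp only
      group

end Pool.Agent.Helper13.FZ
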