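import Pool.Agent.Helper34.TOR.Lcp
import Pool.Agent.Helper42.MC.FreeFacts

/-!
# Project FZ, M-part: displacement sets in free groups

The word metric of a free group is a tree metric (`four`), every triple has a median (`med`). The sets
`{v | |v⁻¹ ω v| ≤ R}` are convex (`convex`), so they have a top (an element closest to `1`), which is on the way
from `1` to each of their elements. If two of these sets have a common element, then the top of one of them
belongs to the other one (`exists_top`).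
-/

set_option autoImplicit false

namespace Pool.Agent.Helper13.FZ

variable {α : Type*} [DecidableEq α]

/-- the word metric -/
def dd (x y : FreeGroup α) : ℕ := (x⁻¹ * y).norm

theorem dd_comm (x y : FreeGroup α) : dd x y = dd y x := by
  unfold dd
  rw [← FreeGroup.norm_inv_eq]
  congr 1
  group

theorem dd_mul (g x y : FreeGroup α) : dd (g * x) (g * y) = dd x y := by
  unfold dd
  congr 1
  group

theorem dd_tri (x y z : FreeGroup α) : dd x z ≤ dd x y + dd y z := by
  unfold dd
  have : x⁻¹ * z = (x⁻¹ * y) * (y⁻¹ * z) := by group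
  rw [this]
  exact FreeGroup.norm_mul_le _ _

theorem dd_one (x : FreeGroup α) : dd 1 x = x.norm := by
  unfold dd
  rw [inv_one, one_mul]

theorem dd_eq_zero {x y : FreeGroup α} (h : dd x y = 0) : x = y := by
  unfold dd at h
  rw [FreeGroup.norm_eq_zero] at h
  exact inv_mul_eq_one.1 h

private theorem four_one (x y z : FreeGroup α) :
    dd 1 x + dd y z ≤ max (dd 1 y + dd x z) (dd 1 z + dd x y) := by
  have h1 := TOR.cp_ultra y x z
  have e1 := TOR.cp_spec y x
  have e2 := TOR.cp_spec x z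
  have e3 := TOR.cp_spec y z
  have f1 : dd y x = (y⁻¹ * x).norm := rfl
  have f2 : dd x z = (x⁻¹ * z).norm := rfl
  have f3 : dd y z = (y⁻¹ * z).norm := rfl
  rw [dd_one, dd_one, dd_one, dd_comm x y, f1, f2, f3]
  rcases min_le_iff.1 h1 with h2 | h2
  · apply le_max_of_le_right
    omega
  · apply le_max_of_le_left
    omega

/-- the four point condition -/
theorem four (o x y z : FreeGroup α) :
    dd o x + dd y z ≤ max (dd o y + dd x z) (dd o z + dd x y) := by
  have h := four_one (o⁻¹ * x) (o⁻¹ * y) (o⁻¹ * z)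
  have e : ∀ u, dd 1 (o⁻¹ * u) = dd o u := by
    intro u
    rw [← dd_mul o 1 (o⁻¹ * u), mul_one, mul_inv_cancel_left]
  rw [e, e, e, dd_mul, dd_mul, dd_mul] at h
  exact h

/-- the initial parts of a word -/
private theorem init_dd (x : FreeGroup α) (c : ℕ) (hc : c ≤ x.norm) :
    (FreeGroup.mk (x.toWord.take c)).norm = c ∧
      dd (FreeGroup.mk (x.toWord.take c)) x = x.norm - c := by
  have h1 : FreeGroup.IsReduced (x.toWord.take c ++ x.toWord.drop c) := by
    rw [List.take_append_drop]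
    exact FreeGroup.isReduced_toWord
  have h2 : FreeGroup.IsReduced (x.toWord.take c) := List.IsChain.left_of_append h1
  have h3 : FreeGroup.IsReduced (x.toWord.drop c) := List.IsChain.right_of_append h1
  constructor
  · rw [FreeGroup.norm, FreeGroup.toWord_mk, h2.reduce_eq, List.length_take]
    exact min_eq_left hc
  · have h4 : x = FreeGroup.mk (x.toWord.take c) * FreeGroup.mk (x.toWord.drop c) := by
      rw [FreeGroup.mul_mk, List.take_append_drop, FreeGroup.mk_toWord]
    have h5 : (FreeGroup.mk (x.toWord.take c))⁻¹ * x = FreeGroup.mk (x.toWord.drop c) :=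
      inv_mul_eq_iff_eq_mul.2 h4
    unfold dd
    rw [h5, FreeGroup.norm, FreeGroup.toWord_mk, h3.reduce_eq, List.length_drop]
    rfl

/-- medians of `1, x, y` -/
theorem med_one (x y : FreeGroup α) : ∃ m, dd 1 m + dd m x = dd 1 x ∧ dd 1 m + dd m y = dd 1 y ∧
    dd x m + dd m y = dd x y := by
  have h1 := TOR.cp_take x y
  have h2 := TOR.cp_spec x y
  have hx : TOR.cp x y ≤ x.norm := TOR.cp_le_left x y
  have hy : TOR.cp x y ≤ y.norm := by
    rw [TOR.cp_comm]
    exact TOR.cp_le_left y x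
  obtain ⟨a1, a2⟩ := init_dd x _ hx
  obtain ⟨b1, b2⟩ := init_dd y _ hy
  rw [← h1] at b1 b2
  refine ⟨FreeGroup.mk (x.toWord.take (TOR.cp x y)), ?_, ?_, ?_⟩
  · rw [dd_one, dd_one, a1, a2]
    omega
  · rw [dd_one, dd_one, b1, b2]
    omega
  · rw [dd_comm x, a2, b2]
    have : dd x y = (x⁻¹ * y).norm := rfl
    omega

/-- a point between `t` and `v` -/
theorem between (t v p x : FreeGroup α) (h : dd t p + dd p v = dd t v) :
    dd p x + dd t p ≤ dd t x ∨ dd p x + dd p v ≤ dd v x := by
  have h1 := four t v p x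
  rw [← h] at h1
  rcases le_max_iff.1 h1 with h2 | h2
  · right
    omega
  · left
    rw [dd_comm v p] at h2
    omega

/-- displacement functions are convex -/
theorem convex (ω t v p : FreeGroup α) (R : ℕ) (ht : dd t (ω * t) ≤ R) (hv : dd v (ω * v) ≤ R)
    (h : dd t p + dd p v = dd t v) : dd p (ω * p) ≤ R := by
  have h' : dd (ω * t) (ω * p) + dd (ω * p) (ω * v) = dd (ω * t) (ω * v) := by
    rw [dd_mul, dd_mul, dd_mul, h]
  have e1 : dd (ω * t) (ω * p) = dd t p := dd_mul _ _ _
  have e2 : dd (ω * p) (ω * v) = dd p v := dd_mul _ _ _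
  have e3 : dd (ω * t) (ω * v) = dd t v := dd_mul _ _ _
  rcases between t v p (ω * p) h with h1 | h1
  · have h2 := between (ω * t) (ω * v) (ω * p) t h'
    rw [dd_comm (ω * p) t, dd_comm (ω * t) t, dd_comm (ω * v) t] at h2
    rcases h2 with h2 | h2
    · omega
    · have h3 := dd_tri t (ω * t) (ω * v)
      omega
  · have h2 := between (ω * t) (ω * v) (ω * p) v h'
    rw [dd_comm (ω * p) v, dd_comm (ω * t) v, dd_comm (ω * v) v] at h2
    rcases h2 with h2 | h2
    · have h3 := dd_tri v (ω * v) (ω * t)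
      have h4 := dd_comm (ω * v) (ω * t)
      omega
    · omega

theorem conj_norm (v ω : FreeGroup α) : (v⁻¹ * ω * v).norm = dd v (ω * v) := by
  unfold dd
  rw [mul_assoc]

/-- the tops -/
theorem exists_top (R : ℕ) : ∃ top : FreeGroup α → FreeGroup α, ∀ ω ω' v : FreeGroup α,
    (v⁻¹ * ω * v).norm ≤ R → (v⁻¹ * ω' * v).norm ≤ R →
    ((top ω)⁻¹ * ω' * top ω).norm ≤ R ∨ ((top ω')⁻¹ * ω * top ω').norm ≤ R := by
  classical
  -- an element of minimal norm
  have hmin : ∀ ω : FreeGroup α, ∃ t : FreeGroup α, (∃ v, dd v (ω * v) ≤ R) →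
      dd t (ω * t) ≤ R ∧ ∀ v, dd v (ω * v) ≤ R → dd 1 t ≤ dd 1 v := by
    intro ω
    by_cases h : ∃ v, dd v (ω * v) ≤ R
    · have hne : {n : ℕ | ∃ v, dd v (ω * v) ≤ R ∧ dd 1 v = n}.Nonempty := by
        obtain ⟨v, hv⟩ := h
        exact ⟨_, v, hv, rfl⟩
      obtain ⟨t, ht, htn⟩ := Nat.sInf_mem hne
      refine ⟨t, fun _ => ⟨ht, fun v hv => ?_⟩⟩
      rw [htn]
      exact Nat.sInf_le ⟨v, hv, rfl⟩
    · exact ⟨1, fun h' => absurd h' h⟩
  choose top htop using hmin
  refine ⟨top, fun ω ω' v hv hv' => ?_⟩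
  rw [conj_norm] at hv hv'
  rw [conj_norm, conj_norm]
  obtain ⟨h1, h2⟩ := htop ω ⟨v, hv⟩
  obtain ⟨h1', h2'⟩ := htop ω' ⟨v, hv'⟩
  -- the top is between `1` and `v`
  have key : ∀ ω t : FreeGroup α, dd t (ω * t) ≤ R → (∀ v, dd v (ω * v) ≤ R → dd 1 t ≤ dd 1 v) →
      ∀ v, dd v (ω * v) ≤ R → dd 1 t + dd t v = dd 1 v := by
    intro ω t ht hmin v hv
    obtain ⟨m, m1, m2, m3⟩ := med_one t v
    have hm := convex ω t v m R ht hv m3
    have h3 := hmin m hm
    have h4 : dd m t = 0 := by omega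
    have h5 := dd_eq_zero h4
    rw [← h5]
    exact m2
  have k1 := key ω _ h1 h2 v hv
  have k2 := key ω' _ h1' h2' v hv'
  -- the longer one of the tops is in the other set
  have key2 : ∀ (ω t' t : FreeGroup α), dd t (ω * t) ≤ R → dd v (ω * v) ≤ R →
      dd 1 t + dd t v = dd 1 v → dd 1 t' + dd t' v = dd 1 v → dd 1 t ≤ dd 1 t' →
      dd t' (ω * t') ≤ R := by
    intro ω t' t ht hv kt kt' hle
    apply convex ω t v t' R ht hv
    have h3 := four 1 v t t'
    have h4 : dd t t' + dd t' v ≤ dd t v := by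
      rcases le_max_iff.1 h3 with h5 | h5
      · rw [dd_comm v t'] at h5
        omega
      · rw [dd_comm v t] at h5
        omega
    have h5 := dd_tri t t' v
    omega
  rcases Nat.le_total (dd 1 (top ω)) (dd 1 (top ω')) with hle | hle
  · right
    exact key2 ω (top ω') (top ω) h1 hv k1 k2 hle
  · left
    exact key2 ω' (top ω) (top ω') h1' hv' k2 k1 hle

end Pool.Agent.Helper13.FZ
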