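import Pool.Agent.Helper13.FZ.Window
import Pool.Agent.Helper13.FZ.Overlap
import Pool.Agent.Helper13.FZ.Tree

/-!
# Project FZ, M-part: number of changes; the linear bound

Let `j` be a change, `k ∈ {j + 1, j + 2}`: the lines of `x j` and `x k` are over different axes. The displacement
sets of the two conjugates have a common vertex, so the top of one of them is in the other one (`exists_top`). The
change is determined by the line whose top it is, by the conjugate of the other one by this top (a ball), its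
label and the difference of the two points. So there are at most `2 |lines| |ball| |B| |S²|` changes.
-/

set_option autoImplicit false

namespace Pool.Agent.Helper13.FZ

variable {G : Type*} [Group G] {α : Type*}

/-- balls in free groups of finite rank are finite -/
theorem finite_ball [Finite α] [DecidableEq α] (R : ℕ) : {v : FreeGroup α | v.norm ≤ R}.Finite := by
  have h1 : {l : List (α × Bool) | l.length ≤ R}.Finite := List.finite_length_le _ R
  refine Set.Finite.of_finite_image (f := FreeGroup.toWord) (h1.subset ?_)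
    (FreeGroup.toWord_injective.injOn)
  rintro _ ⟨v, hv, rfl⟩
  exact hv

variable {L : Subgroup G} {a : G} {pr : G → FreeGroup α} {ht : G → ℤ}

open Classical in
/-- the lines of the points of a path -/
noncomputable def lns (a : G) (m : ℕ) (x : ℕ → G) : Finset (G ⧸ Subgroup.zpowers a) :=
  (Finset.range (m + 1)).image (fun i => (x i : G ⧸ Subgroup.zpowers a))

theorem mem_lns (a : G) {m i : ℕ} (x : ℕ → G) (hi : i ≤ m) :
    (x i : G ⧸ Subgroup.zpowers a) ∈ lns a m x := by
  classical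
  exact Finset.mem_image.2 ⟨i, Finset.mem_range.2 (by omega), rfl⟩

theorem changes [Finite α] (hE : Emb L a pr ht) {N : ℤ} (B S : Finset G)
    (hS : ∀ s ∈ S, s⁻¹ ∈ S) : ∃ (Q : Finset G) (C : ℕ), ∀ (m : ℕ) (g : G) (x : ℕ → G),
    Pth L a B S Q m g x → ∀ X : Finset ℕ, (∀ j ∈ X, j ≤ m ∧ ∃ k, (k = j + 1 ∨ k = j + 2) ∧ k ≤ m ∧
      cj a N g (x j) ∈ L ∧ cj a N g (x k) ∈ L ∧
      ¬ Commute (pr (cj a N g (x j))) (pr (cj a N g (x k)))) →
    X.card ≤ C * (lns a m x).card := by
  classical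
  set S2 : Finset G := PW S 2 with hS2
  have hS2i : ∀ s ∈ S2, s⁻¹ ∈ S2 := by
    intro s hs
    have e0 : PW S 0 = {1} := rfl
    have e1 : ∀ u, u ∈ PW S 1 ↔ u = 1 ∨ u ∈ S := by
      intro u
      rw [PW, e0, Finset.image₂_singleton_left]
      simp
    rw [hS2, PW] at hs ⊢
    obtain ⟨u, hu, v, hv, rfl⟩ := Finset.mem_image₂.1 hs
    rw [e1] at hu
    rw [Finset.mem_insert] at hv
    refine Finset.mem_image₂.2 ⟨v⁻¹, ?_, u⁻¹, ?_, (mul_inv_rev u v).symm⟩
    · rw [e1]
      rcases hv with rfl | hv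
      · left; exact inv_one
      · right; exact hS v hv
    · rw [Finset.mem_insert]
      rcases hu with rfl | hu
      · left; exact inv_one
      · right; exact hS u hu
  obtain ⟨U, Q, hU, hQ⟩ := overlap hE N B S2
  set R : ℕ := U.sup FreeGroup.norm with hR
  have hUR : ∀ u ∈ U, u.norm ≤ R := fun u hu => Finset.le_sup (f := FreeGroup.norm) hu
  obtain ⟨top, htop⟩ := exists_top (α := α) R
  set Bl : Finset (FreeGroup α) := (finite_ball (α := α) R).toFinset with hBl
  have hBlm : ∀ v : FreeGroup α, v.norm ≤ R → v ∈ Bl := by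
    intro v hv
    rw [hBl, Set.Finite.mem_toFinset]
    exact hv
  refine ⟨Q, 2 * (Bl.card * (B.card * S2.card)), ?_⟩
  intro m g x hP X hX
  have hk : ∀ j, ∃ k, j ∈ X → (k = j + 1 ∨ k = j + 2) ∧ k ≤ m ∧
      cj a N g (x j) ∈ L ∧ cj a N g (x k) ∈ L ∧
      ¬ Commute (pr (cj a N g (x j))) (pr (cj a N g (x k))) := by
    intro j
    by_cases hj : j ∈ X
    · obtain ⟨-, k, hk⟩ := hX j hj
      exact ⟨k, fun _ => hk⟩
    · exact ⟨0, fun h => absurd h hj⟩
  choose k hk using hk
  have hb : ∀ j, ∃ b, j ≤ m → b ∈ B ∧ Nr L b g (x j) := by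
    intro j
    by_cases hj : j ≤ m
    · obtain ⟨b, hb, hb'⟩ := hP.near j hj
      exact ⟨b, fun _ => ⟨hb, hb'⟩⟩
    · exact ⟨1, fun h => absurd h hj⟩
  choose b hb using hb
  set ω : ℕ → FreeGroup α := fun j => pr (cj a N g (x j)) with hω
  have hjm : ∀ j ∈ X, j ≤ m := fun j hj => (hX j hj).1
  -- the difference
  have hdiff : ∀ j ∈ X, (x j)⁻¹ * x (k j) ∈ S2 := by
    intro j hj
    obtain ⟨h1, h2, -⟩ := hk j hj
    rcases h1 with h1 | h1
    · rw [h1] at h2 ⊢
      exact PW_mono (show 1 ≤ 2 by norm_num) (hP.pw j 1 h2)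
    · rw [h1] at h2 ⊢
      exact hP.pw j 2 h2
  -- the alternative
  have halt : ∀ j ∈ X, ((top (ω j))⁻¹ * ω (k j) * top (ω j)).norm ≤ R ∨
      ((top (ω (k j)))⁻¹ * ω j * top (ω (k j))).norm ≤ R := by
    intro j hj
    obtain ⟨h1, h2, h3, h4, h5⟩ := hk j hj
    obtain ⟨b1, b2⟩ := hb j (hjm j hj)
    obtain ⟨b1', b2'⟩ := hb (k j) h2
    obtain ⟨v, v1, v2⟩ := hU g (x j) (x (k j)) (b j) (b (k j)) b1 b1' b2 b2' (hdiff j hj) h3 h4
    exact htop _ _ v (hUR _ v1) (hUR _ v2)
  -- a determined line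
  have hdet : ∀ i i' l l', i ≤ m → i' ≤ m → l ≤ m → l' ≤ m → SL a (x i) (x i') →
      (x i)⁻¹ * x l ∈ S2 → (x i')⁻¹ * x l' ∈ S2 → cj a N g (x i) ∈ L → cj a N g (x l) ∈ L →
      cj a N g (x l') ∈ L → ω l = ω l' → b l = b l' → ¬ Commute (ω i) (ω l) →
      SL a (x l) (x l') := by
    intro i i' l l' hi hi' hl hl' hsl hs hs' hci hcl hcl' he hbe hnc
    obtain ⟨b1, b2⟩ := hb i hi
    obtain ⟨b1', b2'⟩ := hb i' hi'
    obtain ⟨c1, c2⟩ := hb l hl
    obtain ⟨c1', c2'⟩ := hb l' hl'
    rw [← hbe] at c2'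
    apply hP.sep l hl l' hl'
    · apply par_of_same hE (N := N) ?_ c2 c2' hcl
      · show Commute (ω l) (ω l')
        rw [← he]
      · rintro rfl
        apply hnc
        have h1 : ω i = 1 := by
          show pr (g⁻¹ * (x i * a ^ (0 : ℤ) * (x i)⁻¹) * g) = 1
          rw [zpow_zero, mul_one, mul_inv_cancel, mul_one, inv_mul_cancel, hE.pr_one]
        rw [h1]
        exact Commute.one_left _
    · exact hQ g (x i) (x i') (x l) (x l') (b i) (b i') (b l) b1 b1' c1 b2 b2' c2 c2' hsl hs hs'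
        hci hcl hcl' he hnc
  -- different axes are not parallel
  have hnp : ∀ j ∈ X, ¬ Par a (x j) (x (k j)) := by
    intro j hj hpar
    obtain ⟨h1, h2, h3, h4, h5⟩ := hk j hj
    exact h5 (comm_of_par hE h3 h4 hpar)
  let F : ℕ → ((G ⧸ Subgroup.zpowers a) × FreeGroup α × G × G) ⊕
      ((G ⧸ Subgroup.zpowers a) × FreeGroup α × G × G) := fun j =>
    if ((top (ω j))⁻¹ * ω (k j) * top (ω j)).norm ≤ R then
      Sum.inl (((x j : G ⧸ Subgroup.zpowers a)), (top (ω j))⁻¹ * ω (k j) * top (ω j), b (k j),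
        (x j)⁻¹ * x (k j))
    else
      Sum.inr (((x (k j) : G ⧸ Subgroup.zpowers a)), (top (ω (k j)))⁻¹ * ω j * top (ω (k j)),
        b j, (x j)⁻¹ * x (k j))
  let Tg : Finset ((G ⧸ Subgroup.zpowers a) × FreeGroup α × G × G) :=
    (lns a m x) ×ˢ (Bl ×ˢ (B ×ˢ S2))
  have hmaps : ∀ j ∈ X, F j ∈ Tg.disjSum Tg := by
    intro j hj
    obtain ⟨h1, h2, -⟩ := hk j hj
    simp only [F]
    split_ifs with h
    · refine Finset.inl_mem_disjSum.2 ?_
      simp only [Tg, Finset.mem_product]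
      exact ⟨mem_lns a x (hjm j hj), hBlm _ h, (hb _ h2).1, hdiff j hj⟩
    · refine Finset.inr_mem_disjSum.2 ?_
      simp only [Tg, Finset.mem_product]
      exact ⟨mem_lns a x h2, hBlm _ ((halt j hj).resolve_left h), (hb _ (hjm j hj)).1, hdiff j hj⟩
  have hinj : ∀ j ∈ X, ∀ j' ∈ X, F j = F j' → j = j' := by
    intro j hj j' hj' he
    obtain ⟨h1, h2, h3, h4, h5⟩ := hk j hj
    obtain ⟨h1', h2', h3', h4', h5'⟩ := hk j' hj'
    have hjm1 := hjm j hj
    have hjm2 := hjm j' hj'
    simp only [F] at he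
    split_ifs at he with hA hB hB
    · simp only [Sum.inl.injEq, Prod.mk.injEq] at he
      obtain ⟨e1, e2, e3, e4⟩ := he
      have hsl := SL.iff_mk.2 e1
      have hωe : ω j = ω j' := congrArg pr (cj_sl hsl N g)
      have e5 : ω (k j) = ω (k j') := by
        rw [hωe] at e2
        exact mul_left_cancel (mul_right_cancel e2)
      have hsl2 := hdet j j' (k j) (k j') hjm1 hjm2 h2 h2' hsl (hdiff j hj) (hdiff j' hj') h3 h4 h4'
        e5 e3 h5
      exact hP.inj j hjm1 j' hjm2 (eq_of_not_par hE.zpow_eq_one (hnp j hj) hsl hsl2 e4).1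
    · simp only [Sum.inr.injEq, Prod.mk.injEq] at he
      obtain ⟨e1, e2, e3, e4⟩ := he
      have hsl := SL.iff_mk.2 e1
      have hωe : ω (k j) = ω (k j') := congrArg pr (cj_sl hsl N g)
      have e5 : ω j = ω j' := by
        rw [hωe] at e2
        exact mul_left_cancel (mul_right_cancel e2)
      have hd : ∀ i ∈ X, (x (k i))⁻¹ * x i ∈ S2 := by
        intro i hi
        have := hS2i _ (hdiff i hi)
        rwa [mul_inv_rev, inv_inv] at this
      have hsl2 := hdet (k j) (k j') j j' h2 h2' hjm1 hjm2 hsl (hd j hj) (hd j' hj') h4 h3 h3'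
        e5 e3 (fun hc => h5 hc.symm)
      exact hP.inj j hjm1 j' hjm2 (eq_of_not_par hE.zpow_eq_one (hnp j hj) hsl2 hsl e4).1
  have hcard := Finset.card_le_card_of_injOn F hmaps (by
    intro j hj j' hj' he
    exact hinj j hj j' hj' he)
  refine hcard.trans (le_of_eq ?_)
  rw [Finset.card_disjSum]
  simp only [Tg, Finset.card_product]
  ring

/-- **The linear bound.** -/
theorem linear_bound [Finite α] (hE : Emb L a pr ht) (B S : Finset G) (hS : ∀ s ∈ S, s⁻¹ ∈ S) :
    ∃ (Q : Finset G) (C : ℕ), ∀ (m : ℕ) (g : G) (x : ℕ → G),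
    Pth L a B S Q m g x → m + 1 ≤ C * (lns a m x).card := by
  classical
  obtain ⟨N, hN, hNb⟩ := exists_exp L a B
  obtain ⟨Q, C, hQ⟩ := changes (N := N) hE B S hS
  set σ := (B.card + 1) ^ 2 * S.card + 2 with hσ
  refine ⟨Q ∪ PW S σ, σ * (C + B.card + 1), ?_⟩
  intro m g x hP
  have hP1 : Pth L a B S Q m g x :=
    ⟨hP.near, hP.step, hP.line, hP.inj, fun i hi j hj h1 h2 =>
      hP.sep i hi j hj h1 (Finset.mem_union_left _ h2)⟩
  let X1 : Finset ℕ := (Finset.range (m + 1)).filter fun j => cj a N g (x j) ∉ L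
  let X2 : Finset ℕ := (Finset.range (m + 1)).filter fun j => ∃ k, (k = j + 1 ∨ k = j + 2) ∧
    k ≤ m ∧ cj a N g (x j) ∈ L ∧ cj a N g (x k) ∈ L ∧
      ¬ Commute (pr (cj a N g (x j))) (pr (cj a N g (x k)))
  have h2 : X2.card ≤ C * (lns a m x).card := by
    apply hQ m g x hP1
    intro j hj
    obtain ⟨hj1, hj2⟩ := Finset.mem_filter.1 hj
    exact ⟨by have := Finset.mem_range.1 hj1; omega, hj2⟩
  have h1 : X1.card ≤ B.card * (lns a m x).card := by
    have hb : ∀ j, ∃ b, j ≤ m → b ∈ B ∧ Nr L b g (x j) := by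
      intro j
      by_cases hj : j ≤ m
      · obtain ⟨b, hb, hb'⟩ := hP.near j hj
        exact ⟨b, fun _ => ⟨hb, hb'⟩⟩
      · exact ⟨1, fun h => absurd h hj⟩
    choose b hb using hb
    rw [← Finset.card_product]
    apply Finset.card_le_card_of_injOn (fun j => (b j, (x j : G ⧸ Subgroup.zpowers a)))
    · intro j hj
      have hj1 := Finset.mem_range.1 (Finset.mem_filter.1 hj).1
      exact Finset.mem_product.2 ⟨(hb j (by omega)).1, mem_lns a x (by omega)⟩
    · intro j hj j' hj' he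
      have hj1 := Finset.mem_range.1 (Finset.mem_filter.1 hj).1
      have hj2 := Finset.mem_range.1 (Finset.mem_filter.1 hj').1
      have hj3 := (Finset.mem_filter.1 hj).2
      simp only [Prod.mk.injEq] at he
      apply hP.inj j (by omega) j' (by omega)
      obtain ⟨c1, c2⟩ := hb j (by omega)
      obtain ⟨c1', c2'⟩ := hb j' (by omega)
      rw [← he.1] at c2'
      exact eq_of_point (hNb _ c1) c2 c2' (SL.iff_mk.2 he.2) hj3
  have h3 : 1 ≤ (lns a m x).card := Finset.card_pos.2 ⟨_, mem_lns a x (Nat.zero_le m)⟩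
  -- blocks
  have hσ0 : 0 < σ := by omega
  have h4 : (m + 1) / σ ≤ (X1 ∪ X2).card := by
    have hw : ∀ q, ∃ j, q < (m + 1) / σ → j ∈ X1 ∪ X2 ∧ q * σ ≤ j ∧ j < q * σ + σ := by
      intro q
      by_cases hq : q < (m + 1) / σ
      · have hq2 : (q + 1) * σ ≤ m + 1 :=
          (Nat.mul_le_mul_right σ hq).trans (Nat.div_mul_le_self _ _)
        have hq3 : q * σ + σ ≤ m + 1 := by
          rw [add_mul, one_mul] at hq2
          exact hq2
        obtain ⟨j, hj1, hj2, hj3⟩ := window hE hN Finset.subset_union_right hP (q * σ) hq3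
        refine ⟨j, fun _ => ⟨?_, hj1, hj2⟩⟩
        have hjr : j ∈ Finset.range (m + 1) := Finset.mem_range.2 (by omega)
        rcases hj3 with h5 | h5
        · exact Finset.mem_union_left _ (Finset.mem_filter.2 ⟨hjr, h5⟩)
        · exact Finset.mem_union_right _ (Finset.mem_filter.2 ⟨hjr, h5⟩)
      · exact ⟨0, fun h => absurd h hq⟩
    choose f hf using hw
    have h5 := Finset.card_le_card_of_injOn (s := Finset.range ((m + 1) / σ)) (t := X1 ∪ X2) f
      (fun q hq => (hf q (Finset.mem_range.1 hq)).1) (by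
        intro q hq q' hq' he
        obtain ⟨-, a1, a2⟩ := hf q (Finset.mem_range.1 hq)
        obtain ⟨-, b1, b2⟩ := hf q' (Finset.mem_range.1 hq')
        rw [← he] at b1 b2
        rcases Nat.lt_trichotomy q q' with h6 | h6 | h6
        · exfalso
          have : (q + 1) * σ ≤ q' * σ := Nat.mul_le_mul_right σ h6
          rw [add_mul, one_mul] at this
          omega
        · exact h6
        · exfalso
          have : (q' + 1) * σ ≤ q * σ := Nat.mul_le_mul_right σ h6
          rw [add_mul, one_mul] at this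
          omega)
    rwa [Finset.card_range] at h5
  have h5 : (X1 ∪ X2).card ≤ (C + B.card) * (lns a m x).card := by
    calc (X1 ∪ X2).card ≤ X1.card + X2.card := Finset.card_union_le _ _
      _ ≤ (C + B.card) * (lns a m x).card := by
        rw [add_mul]
        omega
  have h6 : m + 1 < σ * ((m + 1) / σ + 1) := Nat.lt_mul_div_succ (m + 1) hσ0
  calc m + 1 ≤ σ * ((m + 1) / σ + 1) := h6.le
    _ ≤ σ * ((C + B.card) * (lns a m x).card + (lns a m x).card) :=
      Nat.mul_le_mul_left σ (by omega)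
    _ = σ * (C + B.card + 1) * (lns a m x).card := by ring

end Pool.Agent.Helper13.FZ
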