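import Pool.Agent.Helper13.FZ.Window
import Pool.Agent.Helper65.FZ.Defs

/-!
# Project FZ, M-part: counts

`count_par`: the blocks which contain a point `y` with `x⁻¹ y ∈ Q` on a line parallel to the line of `x`, for `x` in
a given block `v`: their number is bounded by a constant which does not depend on the length `w` of the blocks. (If
`a ^ p s = s a ^ q`, then the line of `x₀ a ^ i s` depends on `i mod p` only, and the points `x₀ a ^ i s` are in at
most `2 |q| + 1` intervals of length `w`.)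
`count_paths`: the paths of `m + 1` points with steps in `S` which contain a point of a given block.
-/

set_option autoImplicit false

namespace Pool.Agent.Helper13.FZ

open Pool.Agent.Helper65.FZ (Ivs)

variable {G : Type*} [Group G]

theorem par_mul {a x s : G} (h : Par a x (x * s)) : ∃ p : ℕ, 0 < p ∧ ∃ q : ℤ,
    a ^ (p : ℤ) * s = s * a ^ q := by
  obtain ⟨p, q, hp, -, h⟩ := h
  have h1 : a ^ p * s = s * a ^ q := by
    calc a ^ p * s = x⁻¹ * (x * a ^ p * x⁻¹) * x * s := by group
      _ = x⁻¹ * (x * s * a ^ q * (x * s)⁻¹) * x * s := by rw [h]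
      _ = s * a ^ q := by group
  rcases lt_or_gt_of_ne hp with h2 | h2
  · refine ⟨(-p).toNat, by omega, -q, ?_⟩
    rw [Int.toNat_of_nonneg (by omega)]
    calc a ^ (-p) * s = a ^ (-p) * (s * a ^ q) * a ^ (-q) := by group
      _ = a ^ (-p) * (a ^ p * s) * a ^ (-q) := by rw [h1]
      _ = s * a ^ (-q) := by group
  · refine ⟨p.toNat, by omega, q, ?_⟩
    rw [Int.toNat_of_nonneg (by omega)]
    exact h1

theorem mul_zpow_comm {a s : G} {p q : ℤ} (h : a ^ p * s = s * a ^ q) (k : ℤ) :
    a ^ (p * k) * s = s * a ^ (q * k) := by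
  have h1 : s * a ^ q * s⁻¹ = a ^ p := by rw [← h, mul_inv_cancel_right]
  have h2 : (s * a ^ q * s⁻¹) ^ k = a ^ (p * k) := by rw [h1, ← zpow_mul]
  rw [← h2, conj_zpow, ← zpow_mul, inv_mul_cancel_right]

theorem count_par (a : G) (Q : Finset G) : ∃ cA : ℕ, ∀ w : ℕ, 1 ≤ w → ∀ {V : Type*} (iv : G → V),
    Ivs a w iv → ∀ v : V, ∃ Φ : Finset V, Φ.card ≤ cA ∧
      ∀ x y, iv x = v → x⁻¹ * y ∈ Q → Par a x y → iv y ∈ Φ := by
  classical
  have hpq : ∀ s : G, ∃ (p : ℕ) (q : ℤ), (∃ x, Par a x (x * s)) →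
      0 < p ∧ a ^ (p : ℤ) * s = s * a ^ q := by
    intro s
    by_cases h : ∃ x, Par a x (x * s)
    · obtain ⟨x, hx⟩ := h
      obtain ⟨p, hp, q, h1⟩ := par_mul hx
      exact ⟨p, q, fun _ => ⟨hp, h1⟩⟩
    · exact ⟨0, 0, fun h' => absurd h' h⟩
  choose p q hpq using hpq
  refine ⟨∑ s ∈ Q, p s * ((4 * (q s).natAbs + 1) * 9), ?_⟩
  intro w hw V iv hI v
  choose fw hfw1 hfw2 using hI.few
  by_cases hv : ∃ x₀, iv x₀ = v
  · obtain ⟨x₀, hx₀⟩ := hv
    refine ⟨Q.biUnion fun s => (Finset.range (p s)).biUnion fun r =>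
      (Finset.Icc (-(2 * ((q s).natAbs : ℤ))) (2 * ((q s).natAbs : ℤ))).biUnion fun e =>
        fw (x₀ * a ^ (r : ℤ) * s * a ^ ((w : ℤ) * e)), ?_, ?_⟩
    · refine Finset.card_biUnion_le.trans (Finset.sum_le_sum fun s _ => ?_)
      refine Finset.card_biUnion_le.trans ?_
      have h1 : ∀ r ∈ Finset.range (p s),
          ((Finset.Icc (-(2 * ((q s).natAbs : ℤ))) (2 * ((q s).natAbs : ℤ))).biUnion fun e =>
            fw (x₀ * a ^ (r : ℤ) * s * a ^ ((w : ℤ) * e))).card ≤ (4 * (q s).natAbs + 1) * 9 := by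
        intro r _
        refine Finset.card_biUnion_le.trans ?_
        refine (Finset.sum_le_card_nsmul _ _ 9 fun e _ => hfw1 _).trans (le_of_eq ?_)
        rw [Int.card_Icc, smul_eq_mul]
        congr 1
        omega
      refine (Finset.sum_le_card_nsmul _ _ _ h1).trans (le_of_eq ?_)
      rw [Finset.card_range, smul_eq_mul]
    · intro x y hx hs hpar
      obtain ⟨i, hi, rfl⟩ := hI.line x₀ x (by rw [hx₀, hx])
      set s := (x₀ * a ^ i)⁻¹ * y with hsdef
      have hy : y = x₀ * a ^ i * s := by rw [hsdef]; group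
      have hex : ∃ x, Par a x (x * s) := ⟨x₀ * a ^ i, by rw [← hy]; exact hpar⟩
      obtain ⟨hp, hc⟩ := hpq s hex
      have hp' : (0 : ℤ) < (p s : ℤ) := by exact_mod_cast hp
      have hr0 : 0 ≤ i % (p s : ℤ) := Int.emod_nonneg _ hp'.ne'
      have hr1 : i % (p s : ℤ) < p s := Int.emod_lt_of_pos _ hp'
      have hw' : (0 : ℤ) < w := by exact_mod_cast hw
      -- the quotient
      have hk : |i / (p s : ℤ)| ≤ 2 * w := by
        have h3 := Int.ediv_mul_add_emod i (p s : ℤ)
        rw [abs_lt] at hi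
        rw [abs_le]
        constructor
        · by_contra hcon
          push Not at hcon
          have : i / (p s : ℤ) * (p s : ℤ) ≤ (-(2 * (w : ℤ)) - 1) * (p s : ℤ) :=
            mul_le_mul_of_nonneg_right (by omega) hp'.le
          nlinarith
        · by_contra hcon
          push Not at hcon
          have : (2 * (w : ℤ) + 1) * (p s : ℤ) ≤ i / (p s : ℤ) * (p s : ℤ) :=
            mul_le_mul_of_nonneg_right (by omega) hp'.le
          nlinarith
      set k := i / (p s : ℤ) with hkdef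
      set r := i % (p s : ℤ) with hrdef
      set j := q s * k with hj
      have hy2 : y = x₀ * a ^ r * s * a ^ j := by
        have h3 : i = r + (p s : ℤ) * k := by
          have := Int.ediv_mul_add_emod i (p s : ℤ)
          rw [hrdef, hkdef]
          linarith
        rw [hy]
        conv_lhs => rw [h3]
        rw [zpow_add, hj]
        have h4 := mul_zpow_comm hc k
        calc x₀ * (a ^ r * a ^ ((p s : ℤ) * k)) * s = x₀ * a ^ r * (a ^ ((p s : ℤ) * k) * s) := by
              group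
          _ = x₀ * a ^ r * (s * a ^ (q s * k)) := by rw [h4]
          _ = x₀ * a ^ r * s * a ^ (q s * k) := by group
      have hjb : |j| ≤ 2 * ((q s).natAbs : ℤ) * w := by
        rw [hj, abs_mul]
        calc |q s| * |k| ≤ |q s| * (2 * w) := mul_le_mul_of_nonneg_left hk (abs_nonneg _)
          _ = 2 * ((q s).natAbs : ℤ) * w := by rw [Int.abs_eq_natAbs]; ring
      have hjd := Int.ediv_mul_add_emod j (w : ℤ)
      have hjm0 : 0 ≤ j % (w : ℤ) := Int.emod_nonneg _ hw'.ne'
      have hjm1 : j % (w : ℤ) < w := Int.emod_lt_of_pos _ hw'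
      rw [abs_le] at hjb
      have he1 : -(2 * ((q s).natAbs : ℤ)) ≤ j / w := by
        rw [Int.le_ediv_iff_mul_le hw']
        linarith
      have he2 : j / w ≤ 2 * ((q s).natAbs : ℤ) := by
        apply Int.ediv_le_of_le_mul hw'
        linarith
      simp only [Finset.mem_biUnion]
      refine ⟨s, hs, r.toNat, Finset.mem_range.2 (by omega), j / w, Finset.mem_Icc.2 ⟨he1, he2⟩, ?_⟩
      have h5 := hfw2 (x₀ * a ^ ((r.toNat : ℕ) : ℤ) * s * a ^ ((w : ℤ) * (j / w))) (j % w) hjm0 hjm1
      have h6 : x₀ * a ^ ((r.toNat : ℕ) : ℤ) * s * a ^ ((w : ℤ) * (j / w)) * a ^ (j % (w : ℤ)) = y := by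
        rw [Int.toNat_of_nonneg hr0, mul_assoc (x₀ * a ^ r * s), ← zpow_add, hy2]
        congr 2
        linarith
      rwa [h6] at h5
  · refine ⟨∅, by simp, ?_⟩
    intro x y hx
    exact absurd ⟨x, hx⟩ hv

/-- number of the paths through a given point -/
theorem count_paths_point (S : Finset G) (m : ℕ) (i : Fin (m + 1)) (y : G) :
    {x : Fin (m + 1) → G | x i = y ∧ ∀ j : Fin m, (x j.castSucc)⁻¹ * x j.succ ∈ S}.Finite ∧
    {x : Fin (m + 1) → G | x i = y ∧ ∀ j : Fin m, (x j.castSucc)⁻¹ * x j.succ ∈ S}.ncard ≤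
      S.card ^ m := by
  classical
  set A : Set (Fin (m + 1) → G) :=
    {x : Fin (m + 1) → G | x i = y ∧ ∀ j : Fin m, (x j.castSucc)⁻¹ * x j.succ ∈ S} with hA
  let f : (Fin (m + 1) → G) → (Fin m → G) := fun x j => (x j.castSucc)⁻¹ * x j.succ
  let W : Finset (Fin m → G) := Fintype.piFinset fun _ => S
  have hinj : Set.InjOn f A := by
    rintro x ⟨hx, -⟩ x' ⟨hx', -⟩ he
    have hc : ∀ j : Fin (m + 1), x j * (x' j)⁻¹ = x 0 * (x' 0)⁻¹ := by
      intro j
      induction j using Fin.induction with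
      | zero => rfl
      | succ j ih =>
        have h1 : (x j.castSucc)⁻¹ * x j.succ = (x' j.castSucc)⁻¹ * x' j.succ := congrFun he j
        calc x j.succ * (x' j.succ)⁻¹ = x j.castSucc * ((x j.castSucc)⁻¹ * x j.succ) *
              (x' j.succ)⁻¹ := by group
          _ = x j.castSucc * ((x' j.castSucc)⁻¹ * x' j.succ) * (x' j.succ)⁻¹ := by rw [h1]
          _ = x j.castSucc * (x' j.castSucc)⁻¹ := by group
          _ = _ := ih
    have h0 : x 0 * (x' 0)⁻¹ = 1 := by
      rw [← hc i, hx, hx', mul_inv_cancel]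
    funext j
    have := hc j
    rw [h0] at this
    exact mul_inv_eq_one.1 this
  have hmaps : f '' A ⊆ W := by
    rintro _ ⟨x, hx, rfl⟩
    rw [Finset.mem_coe, Fintype.mem_piFinset]
    exact fun j => hx.2 j
  have hfin : A.Finite := Set.Finite.of_finite_image (W.finite_toSet.subset hmaps) hinj
  refine ⟨hfin, ?_⟩
  calc A.ncard = (f '' A).ncard := (Set.ncard_image_of_injOn hinj).symm
    _ ≤ (W : Set (Fin m → G)).ncard := Set.ncard_le_ncard hmaps W.finite_toSet
    _ = S.card ^ m := by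
      rw [Set.ncard_coe_finset, Fintype.card_piFinset]
      simp

/-- the paths through a block -/
theorem count_paths {a : G} {w : ℕ} {V : Type*} {iv : G → V} (hI : Ivs a w iv) (S : Finset G)
    (m : ℕ) (v : V) : ∃ X : Finset (Fin (m + 1) → G), X.card ≤ (m + 1) * (4 * w * S.card ^ m) ∧
    ∀ x : Fin (m + 1) → G, (∀ j : Fin m, (x j.castSucc)⁻¹ * x j.succ ∈ S) → (∃ i, iv (x i) = v) →
      x ∈ X := by
  classical
  by_cases hv : ∃ x₀, iv x₀ = v
  · obtain ⟨x₀, hx₀⟩ := hv
    let P : Finset ℤ := Finset.Ioo (-(2 * (w : ℤ))) (2 * w)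
    refine ⟨Finset.univ.biUnion fun i : Fin (m + 1) => P.biUnion fun j =>
      (count_paths_point S m i (x₀ * a ^ j)).1.toFinset, ?_, ?_⟩
    · refine Finset.card_biUnion_le.trans ?_
      have h1 : ∀ i ∈ (Finset.univ : Finset (Fin (m + 1))), (P.biUnion fun j =>
          (count_paths_point S m i (x₀ * a ^ j)).1.toFinset).card ≤ 4 * w * S.card ^ m := by
        intro i _
        refine Finset.card_biUnion_le.trans ?_
        refine (Finset.sum_le_card_nsmul _ _ (S.card ^ m) fun j _ => ?_).trans ?_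
        · rw [← Set.ncard_eq_toFinset_card _ (count_paths_point S m i (x₀ * a ^ j)).1]
          exact (count_paths_point S m i (x₀ * a ^ j)).2
        · rw [smul_eq_mul, Int.card_Ioo]
          exact Nat.mul_le_mul_right _ (by omega)
      refine (Finset.sum_le_card_nsmul _ _ _ h1).trans (le_of_eq ?_)
      rw [Finset.card_univ, Fintype.card_fin, smul_eq_mul]
    · rintro x hx ⟨i, hi⟩
      obtain ⟨j, hj, hxj⟩ := hI.line x₀ (x i) (by rw [hx₀, hi])
      simp only [Finset.mem_biUnion, Finset.mem_univ, true_and]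
      refine ⟨i, j, ?_, ?_⟩
      · rw [abs_lt] at hj
        exact Finset.mem_Ioo.2 hj
      · rw [Set.Finite.mem_toFinset]
        exact ⟨hxj, hx⟩
  · refine ⟨∅, by simp, ?_⟩
    rintro x - ⟨i, hi⟩
    exact absurd ⟨_, hi⟩ hv

end Pool.Agent.Helper13.FZ
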