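import Mathlib

/-!
# Project FZ, M-part. Definitions

`Emb L a pr ht`: the subgroup `L` contains `a`, and `(pr, ht)` embeds `L` into `FreeGroup α × ℤ`, `a ↦ (1, 1)`.
`SL a x y`: the points `x, y` are on the same line `x ⟨a⟩`. `Par a x y`: the lines of `x` and `y` are parallel
(commensurable).
-/

set_option autoImplicit false

namespace Pool.Agent.Helper13.FZ

variable {G : Type*} [Group G] {α : Type*}

/-- `L` contains `a` and is embedded into `FreeGroup α × ℤ` by `(pr, ht)`, `a ↦ (1, 1)` -/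
structure Emb (L : Subgroup G) (a : G) (pr : G → FreeGroup α) (ht : G → ℤ) : Prop where
  mem : a ∈ L
  pr_mul : ∀ x ∈ L, ∀ y ∈ L, pr (x * y) = pr x * pr y
  ht_mul : ∀ x ∈ L, ∀ y ∈ L, ht (x * y) = ht x + ht y
  pr_a : pr a = 1
  ht_a : ht a = 1
  inj : ∀ x ∈ L, pr x = 1 → ht x = 0 → x = 1

/-- `x` and `y` are on the same line -/
def SL (a x y : G) : Prop := ∃ t : ℤ, y = x * a ^ t

/-- the lines of `x` and `y` are parallel -/
def Par (a x y : G) : Prop := ∃ p q : ℤ, p ≠ 0 ∧ q ≠ 0 ∧ x * a ^ p * x⁻¹ = y * a ^ q * y⁻¹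

namespace SL

variable {a x y z : G}

theorem refl (a x : G) : SL a x x := ⟨0, by simp⟩

theorem symm (h : SL a x y) : SL a y x := by
  obtain ⟨t, rfl⟩ := h
  exact ⟨-t, by rw [mul_assoc, ← zpow_add, add_neg_cancel, zpow_zero, mul_one]⟩

theorem trans (h : SL a x y) (h' : SL a y z) : SL a x z := by
  obtain ⟨t, rfl⟩ := h
  obtain ⟨s, rfl⟩ := h'
  exact ⟨t + s, by rw [mul_assoc, ← zpow_add]⟩

theorem iff_mk : SL a x y ↔ (x : G ⧸ Subgroup.zpowers a) = y := by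
  rw [QuotientGroup.eq, Subgroup.mem_zpowers_iff]
  constructor
  · rintro ⟨t, rfl⟩
    exact ⟨t, by group⟩
  · rintro ⟨t, ht⟩
    exact ⟨t, by rw [ht]; group⟩

/-- conjugates of powers of `a` depend only on the line -/
theorem conj (h : SL a x y) (p : ℤ) : x * a ^ p * x⁻¹ = y * a ^ p * y⁻¹ := by
  obtain ⟨t, rfl⟩ := h
  have h1 : a ^ t * a ^ p * (a ^ t)⁻¹ = a ^ p := by
    rw [← zpow_add, add_comm, zpow_add, mul_inv_cancel_right]
  rw [mul_inv_rev]
  calc x * a ^ p * x⁻¹ = x * (a ^ t * a ^ p * (a ^ t)⁻¹) * x⁻¹ := by rw [h1]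
    _ = x * a ^ t * a ^ p * ((a ^ t)⁻¹ * x⁻¹) := by group

theorem par (h : SL a x y) : Par a x y := ⟨1, 1, one_ne_zero, one_ne_zero, h.conj 1⟩

end SL

namespace Par

variable {a x y z : G}

theorem symm (h : Par a x y) : Par a y x := by
  obtain ⟨p, q, hp, hq, h⟩ := h
  exact ⟨q, p, hq, hp, h.symm⟩

theorem trans (h : Par a x y) (h' : Par a y z) : Par a x z := by
  obtain ⟨p, q, hp, hq, h⟩ := h
  obtain ⟨r, s, hr, hs, h'⟩ := h'
  refine ⟨p * r, s * q, mul_ne_zero hp hr, mul_ne_zero hs hq, ?_⟩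
  have e1 : x * a ^ (p * r) * x⁻¹ = (x * a ^ p * x⁻¹) ^ r := by
    rw [conj_zpow, ← zpow_mul]
  have e2 : z * a ^ (s * q) * z⁻¹ = (z * a ^ s * z⁻¹) ^ q := by
    rw [conj_zpow, ← zpow_mul]
  rw [e1, e2, h, ← h', conj_zpow, conj_zpow, ← zpow_mul, ← zpow_mul, mul_comm]

/-- the two powers of conjugates -/
theorem of_sl_left (h : SL a x y) (h' : Par a y z) : Par a x z := h.par.trans h'

theorem of_sl_right (h : Par a x y) (h' : SL a y z) : Par a x z := h.trans h'.par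

end Par

/-- two different parallel pairs: a close pair of points of two lines which are not parallel is determined
by the difference -/
theorem eq_of_not_par {a x y x' y' : G} (ha : ∀ t : ℤ, a ^ t = 1 → t = 0) (hxy : ¬ Par a x y)
    (hx : SL a x x') (hy : SL a y y') (h : x⁻¹ * y = x'⁻¹ * y') : x = x' ∧ y = y' := by
  obtain ⟨i, rfl⟩ := hx
  obtain ⟨j, rfl⟩ := hy
  have h1 : a ^ i * (x⁻¹ * y) = (x⁻¹ * y) * a ^ j := by
    rw [mul_inv_rev] at h
    calc a ^ i * (x⁻¹ * y) = a ^ i * ((a ^ i)⁻¹ * x⁻¹ * (y * a ^ j)) := by rw [← h]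
      _ = (x⁻¹ * y) * a ^ j := by group
  have hi : i = 0 := by
    by_contra hi
    have hj : j ≠ 0 := by
      rintro rfl
      apply hi
      apply ha
      rw [zpow_zero, mul_one] at h1
      exact mul_eq_right.1 h1
    apply hxy
    refine ⟨i, j, hi, hj, ?_⟩
    calc x * a ^ i * x⁻¹ = x * (a ^ i * (x⁻¹ * y)) * y⁻¹ := by group
      _ = x * ((x⁻¹ * y) * a ^ j) * y⁻¹ := by rw [h1]
      _ = y * a ^ j * y⁻¹ := by group
  subst hi
  rw [zpow_zero, one_mul] at h1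
  have hj : a ^ j = 1 := (mul_eq_left.1 h1.symm)
  refine ⟨by simp, by rw [hj, mul_one]⟩

namespace Emb

variable {L : Subgroup G} {a : G} {pr : G → FreeGroup α} {ht : G → ℤ}

theorem pr_one (h : Emb L a pr ht) : pr 1 = 1 := by
  have := h.pr_mul 1 L.one_mem 1 L.one_mem
  rw [one_mul] at this
  exact (mul_eq_left.1 this.symm)

theorem ht_one (h : Emb L a pr ht) : ht 1 = 0 := by
  have := h.ht_mul 1 L.one_mem 1 L.one_mem
  rw [one_mul] at this
  omega

theorem pr_inv (h : Emb L a pr ht) {x : G} (hx : x ∈ L) : pr x⁻¹ = (pr x)⁻¹ := by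
  have := h.pr_mul x hx x⁻¹ (L.inv_mem hx)
  rw [mul_inv_cancel, h.pr_one] at this
  exact (inv_eq_of_mul_eq_one_right this.symm).symm

theorem ht_inv (h : Emb L a pr ht) {x : G} (hx : x ∈ L) : ht x⁻¹ = - ht x := by
  have := h.ht_mul x hx x⁻¹ (L.inv_mem hx)
  rw [mul_inv_cancel, h.ht_one] at this
  omega

theorem pr_pow (h : Emb L a pr ht) {x : G} (hx : x ∈ L) (n : ℕ) : pr (x ^ n) = pr x ^ n := by
  induction n with
  | zero => rw [pow_zero, pow_zero, h.pr_one]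
  | succ n ih => rw [pow_succ, pow_succ, h.pr_mul _ (L.pow_mem hx n) _ hx, ih]

theorem ht_pow (h : Emb L a pr ht) {x : G} (hx : x ∈ L) (n : ℕ) : ht (x ^ n) = n * ht x := by
  induction n with
  | zero => rw [pow_zero, h.ht_one]; simp
  | succ n ih =>
    rw [pow_succ, h.ht_mul _ (L.pow_mem hx n) _ hx, ih]
    push_cast
    ring

theorem pr_zpow (h : Emb L a pr ht) {x : G} (hx : x ∈ L) (n : ℤ) : pr (x ^ n) = pr x ^ n := by
  cases n with
  | ofNat n => simpa using h.pr_pow hx n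
  | negSucc n =>
    rw [zpow_negSucc, zpow_negSucc, h.pr_inv (L.pow_mem hx _), h.pr_pow hx]

theorem ht_zpow (h : Emb L a pr ht) {x : G} (hx : x ∈ L) (n : ℤ) : ht (x ^ n) = n * ht x := by
  cases n with
  | ofNat n => simpa using h.ht_pow hx n
  | negSucc n =>
    rw [zpow_negSucc, h.ht_inv (L.pow_mem hx _), h.ht_pow hx, Int.negSucc_eq]
    push_cast
    ring

theorem zpow_eq_one (h : Emb L a pr ht) (t : ℤ) (hat : a ^ t = 1) : t = 0 := by
  have h1 := h.ht_zpow h.mem t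
  rw [hat, h.ht_one, h.ht_a, mul_one] at h1
  exact h1.symm

theorem ext (h : Emb L a pr ht) {x y : G} (hx : x ∈ L) (hy : y ∈ L) (h1 : pr x = pr y)
    (h2 : ht x = ht y) : x = y := by
  have h3 : x * y⁻¹ = 1 := by
    apply h.inj _ (L.mul_mem hx (L.inv_mem hy))
    · rw [h.pr_mul _ hx _ (L.inv_mem hy), h.pr_inv hy, h1, mul_inv_cancel]
    · rw [h.ht_mul _ hx _ (L.inv_mem hy), h.ht_inv hy, h2, add_neg_cancel]
  exact mul_inv_eq_one.1 h3

/-- the kernel of `pr` -/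
theorem eq_zpow (h : Emb L a pr ht) {x : G} (hx : x ∈ L) (h1 : pr x = 1) : x = a ^ ht x := by
  apply h.ext hx (L.zpow_mem h.mem _)
  · rw [h1, h.pr_zpow h.mem, h.pr_a, one_zpow]
  · rw [h.ht_zpow h.mem, h.ht_a, mul_one]

theorem pr_conj (h : Emb L a pr ht) {l x : G} (hl : l ∈ L) (hx : x ∈ L) :
    pr (l * x * l⁻¹) = pr l * pr x * (pr l)⁻¹ := by
  rw [h.pr_mul _ (L.mul_mem hl hx) _ (L.inv_mem hl), h.pr_mul _ hl _ hx, h.pr_inv hl]

theorem ht_conj (h : Emb L a pr ht) {l x : G} (hl : l ∈ L) (hx : x ∈ L) :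
    ht (l * x * l⁻¹) = ht x := by
  rw [h.ht_mul _ (L.mul_mem hl hx) _ (L.inv_mem hl), h.ht_mul _ hl _ hx, h.ht_inv hl]
  ring

end Emb

end Pool.Agent.Helper13.FZ
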