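import Pool.Agent.Helper13.FZ.Window
import Pool.Agent.Helper65.GN.BaseA

/-!
# Project FZ, M-part: the deterministic part

`P` = the marked points of one colour. A chain in the thickened set `{x | ∃ b ∈ B, x b ∈ P}` gives a walk in the graph
of the segments (segment of `x`: the line of `x` and `n x / h`). If the segments of a path in this graph are
different, then consecutive segments are on different lines (as `h` is large and the colours are equal), so the
contact points of a path of `m + 1` segments are a path of points with steps in a fixed finite set `S`. If there is no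
such path then the chain stays in a bounded set.
-/

set_option autoImplicit false

namespace Pool.Agent.Helper13.FZ

open Pool.Agent.Helper65.TH (Chain)
open Pool.Agent.Helper65.GN (Bdd)

variable {G : Type*} [Group G]

/-- the segment of `x` -/
def seg (a : G) (n : G → ℤ) (h : ℕ) (x : G) : (G ⧸ Subgroup.zpowers a) × ℤ :=
  ((x : G ⧸ Subgroup.zpowers a), n x / h)

theorem n_zpow {a : G} {n : G → ℤ} (hn : ∀ x, n (x * a) = n x + 1) (x : G) (t : ℤ) :
    n (x * a ^ t) = n x + t := by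
  induction t using Int.induction_on with
  | zero => simp
  | succ i ih =>
    rw [zpow_add, zpow_one, ← mul_assoc, hn, ih]
    ring
  | pred i ih =>
    have h1 := hn (x * a ^ (-(i : ℤ) - 1))
    rw [mul_assoc, ← zpow_add_one, sub_add_cancel, ih] at h1
    omega

theorem seg_eq {a : G} {n : G → ℤ} (hn : ∀ x, n (x * a) = n x + 1) {h : ℕ} (hh : 0 < h) {x y : G}
    (hs : seg a n h x = seg a n h y) : ∃ t : ℤ, |t| < h ∧ y = x * a ^ t := by
  simp only [seg, Prod.mk.injEq] at hs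
  obtain ⟨t, rfl⟩ := SL.iff_mk.2 hs.1
  refine ⟨t, ?_, rfl⟩
  have h1 := hs.2
  rw [n_zpow hn] at h1
  have hh' : (0 : ℤ) < h := by exact_mod_cast hh
  have e1 := Int.ediv_mul_add_emod (n x) (h : ℤ)
  have e2 := Int.ediv_mul_add_emod (n x + t) (h : ℤ)
  have f1 := Int.emod_nonneg (n x) hh'.ne'
  have f2 := Int.emod_nonneg (n x + t) hh'.ne'
  have g1 := Int.emod_lt_of_pos (n x) hh'
  have g2 := Int.emod_lt_of_pos (n x + t) hh'
  rw [← h1] at e2
  rw [abs_lt]
  constructor <;> linarith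

/-- points of one colour on one line which are close have the same segment -/
theorem seg_eq_of_close {a : G} {n : G → ℤ} (hn : ∀ x, n (x * a) = n x + 1) {h : ℕ} (hh : 0 < h)
    {x y : G} {t : ℤ} (hxy : y = x * a ^ t) (ht : |t| < h) (hc : (n x / h) % 2 = (n y / h) % 2) :
    seg a n h x = seg a n h y := by
  have hh' : (0 : ℤ) < h := by exact_mod_cast hh
  have e1 := Int.ediv_mul_add_emod (n x) (h : ℤ)
  have e2 := Int.ediv_mul_add_emod (n y) (h : ℤ)
  have f1 := Int.emod_nonneg (n x) hh'.ne'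
  have f2 := Int.emod_nonneg (n y) hh'.ne'
  have g1 := Int.emod_lt_of_pos (n x) hh'
  have g2 := Int.emod_lt_of_pos (n y) hh'
  have h1 : n y = n x + t := by rw [hxy, n_zpow hn]
  rw [abs_lt] at ht
  have h2 : n x / h = n y / h := by
    have k1 : n y / h < n x / h + 2 := by
      by_contra hcon
      push Not at hcon
      have := mul_le_mul_of_nonneg_right hcon hh'.le
      nlinarith
    have k2 : n x / h < n y / h + 2 := by
      by_contra hcon
      push Not at hcon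
      have := mul_le_mul_of_nonneg_right hcon hh'.le
      nlinarith
    omega
  unfold seg
  rw [h2]
  congr 1
  exact SL.iff_mk.1 ⟨t, hxy⟩

theorem det {L : Subgroup G} {a : G} (ha : ∀ t : ℤ, a ^ t = 1 → t = 0) (n : G → ℤ)
    (hn : ∀ x, n (x * a) = n x + 1) (T B : Finset G) (hT : ∀ t ∈ T, t ∈ L) :
    ∃ (h : ℕ) (S : Finset G), 0 < h ∧ (∀ s ∈ S, s⁻¹ ∈ S) ∧ ∀ m : ℕ, ∃ E : Finset G,
    ∀ (P : Set G) (c : ℤ), (∀ x ∈ P, (n x / h) % 2 = c) →
      (∀ (g : G) (x : ℕ → G), (∀ i ≤ m, x i ∈ P) → (∀ i ≤ m, ∃ b ∈ B, Nr L b g (x i)) →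
        (∀ i < m, (x i)⁻¹ * x (i + 1) ∈ S) → (∀ i < m, ¬ SL a (x i) (x (i + 1))) →
        (∀ i ≤ m, ∀ j ≤ m, x i = x j → i = j) → False) →
      Bdd (T : Set G) {x | ∃ b ∈ B, x * b ∈ P} E := by
  classical
  -- the symmetric step set
  set T1 : Finset G := insert 1 (T ∪ T.image (fun s => s⁻¹)) with hT1
  have hT1i : ∀ s ∈ T1, s⁻¹ ∈ T1 := by
    intro s hs
    rcases Finset.mem_insert.1 hs with rfl | hs
    · rw [inv_one]
      exact Finset.mem_insert_self _ _
    · apply Finset.mem_insert_of_mem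
      rcases Finset.mem_union.1 hs with hs | hs
      · exact Finset.mem_union_right _ (Finset.mem_image_of_mem _ hs)
      · obtain ⟨u, hu, rfl⟩ := Finset.mem_image.1 hs
        rw [inv_inv]
        exact Finset.mem_union_left _ hu
  set B1 : Finset G := (B ×ˢ T1 ×ˢ B).image (fun p => p.1⁻¹ * p.2.1 * p.2.2) with hB1
  have hB1m : ∀ b ∈ B, ∀ t ∈ T1, ∀ b' ∈ B, b⁻¹ * t * b' ∈ B1 := by
    intro b hb t ht b' hb'
    exact Finset.mem_image.2 ⟨(b, t, b'), by
      simp only [Finset.mem_product]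
      exact ⟨hb, ht, hb'⟩, rfl⟩
  have hB1i : ∀ s ∈ B1, s⁻¹ ∈ B1 := by
    intro s hs
    obtain ⟨⟨b, t, b'⟩, hp, rfl⟩ := Finset.mem_image.1 hs
    simp only [Finset.mem_product] at hp
    have e : (b⁻¹ * t * b')⁻¹ = b'⁻¹ * t⁻¹ * b := by group
    rw [e]
    exact hB1m _ hp.2.2 _ (hT1i _ hp.2.1) _ hp.1
  -- the height of the segments
  have hfin : {t : ℤ | a ^ t ∈ B1}.Finite := by
    refine Set.Finite.of_finite_image (f := fun t => a ^ t) (B1.finite_toSet.subset ?_) ?_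
    · rintro _ ⟨t, ht, rfl⟩
      exact ht
    · intro t _ t' _ he
      have he' : a ^ t = a ^ t' := he
      have h1 : a ^ (t - t') = 1 := by rw [zpow_sub, he', mul_inv_cancel]
      have := ha _ h1
      omega
  obtain ⟨h, hh, hhb⟩ : ∃ h : ℕ, 0 < h ∧ ∀ t : ℤ, a ^ t ∈ B1 → |t| < h := by
    refine ⟨(hfin.toFinset.sup fun t => t.natAbs) + 1, by omega, fun t ht => ?_⟩
    have h1 : t.natAbs ≤ hfin.toFinset.sup fun t => t.natAbs :=
      Finset.le_sup (f := fun t : ℤ => t.natAbs) (hfin.mem_toFinset.2 ht)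
    have h2 : |t| = (t.natAbs : ℤ) := Int.abs_eq_natAbs t
    rw [h2]
    exact_mod_cast Nat.lt_succ_of_le h1
  set A1 : Finset G := (Finset.Ioo (-(h : ℤ)) h).image (fun t => a ^ t) with hA1
  have hA1m : ∀ t : ℤ, |t| < h → a ^ t ∈ A1 := by
    intro t ht
    rw [abs_lt] at ht
    exact Finset.mem_image.2 ⟨t, Finset.mem_Ioo.2 ht, rfl⟩
  have hA1one : (1 : G) ∈ A1 := by
    have := hA1m 0 (by simpa using hh)
    rwa [zpow_zero] at this
  have hA1i : ∀ s ∈ A1, s⁻¹ ∈ A1 := by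
    intro s hs
    obtain ⟨t, ht, rfl⟩ := Finset.mem_image.1 hs
    rw [← zpow_neg]
    apply hA1m
    rw [abs_neg, abs_lt]
    exact Finset.mem_Ioo.1 ht
  set S : Finset G := (A1 ×ˢ B1 ×ˢ A1).image (fun p => p.1 * p.2.1 * p.2.2) with hS
  have hSm : ∀ u ∈ A1, ∀ s ∈ B1, ∀ v ∈ A1, u * s * v ∈ S := by
    intro u hu s hs v hv
    exact Finset.mem_image.2 ⟨(u, s, v), by
      simp only [Finset.mem_product]
      exact ⟨hu, hs, hv⟩, rfl⟩
  refine ⟨h, S, hh, ?_, ?_⟩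
  · intro s hs
    obtain ⟨⟨u, t, v⟩, hp, rfl⟩ := Finset.mem_image.1 hs
    simp only [Finset.mem_product] at hp
    have e : (u * t * v)⁻¹ = v⁻¹ * t⁻¹ * u⁻¹ := by group
    rw [e]
    exact hSm _ (hA1i _ hp.2.2) _ (hB1i _ hp.2.1) _ (hA1i _ hp.1)
  intro m
  -- the bound
  set E0 : Finset G := (B ×ˢ (PW S m) ×ˢ A1 ×ˢ B).image (fun p => p.1 * p.2.1 * p.2.2.1 * p.2.2.2⁻¹)
    with hE0
  refine ⟨E0, fun P c hPc hno => ?_⟩
  intro x₀ hx₀ z hz
  -- the graph of the segments near the leaf of `x₀`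
  let Gr : SimpleGraph ((G ⧸ Subgroup.zpowers a) × ℤ) :=
    { Adj := fun s s' => s ≠ s' ∧ ∃ y y', y ∈ P ∧ y' ∈ P ∧ (∃ b ∈ B, Nr L b x₀ y) ∧
        (∃ b ∈ B, Nr L b x₀ y') ∧ seg a n h y = s ∧ seg a n h y' = s' ∧ y⁻¹ * y' ∈ B1
      symm := ⟨by
        rintro s s' ⟨hne, y, y', h1, h2, h3, h4, h5, h6, h7⟩
        refine ⟨hne.symm, y', y, h2, h1, h4, h3, h6, h5, ?_⟩
        have := hB1i _ h7
        rwa [mul_inv_rev, inv_inv] at this⟩
      loopless := ⟨fun s hs => hs.1 rfl⟩ }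
  have hadj : ∀ s s', Gr.Adj s s' ↔ s ≠ s' ∧ ∃ y y', y ∈ P ∧ y' ∈ P ∧ (∃ b ∈ B, Nr L b x₀ y) ∧
        (∃ b ∈ B, Nr L b x₀ y') ∧ seg a n h y = s ∧ seg a n h y' = s' ∧ y⁻¹ * y' ∈ B1 :=
    fun s s' => Iff.rfl
  obtain ⟨b₀, hb₀, hxb₀⟩ := hx₀
  have hTL : ∀ s ∈ (T : Set G), s ∈ L := hT
  -- near points of the chain
  have hnr : ∀ y b, x₀⁻¹ * y ∈ L → Nr L b x₀ (y * b) := by
    intro y b hy
    unfold Nr
    have e : x₀⁻¹ * (y * b) * b⁻¹ = x₀⁻¹ * y := by group
    rwa [e]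
  -- reachability
  have hreach : x₀⁻¹ * z ∈ L ∧ (∃ b ∈ B, z * b ∈ P) ∧ ∀ b ∈ B, z * b ∈ P →
      Gr.Reachable (seg a n h (x₀ * b₀)) (seg a n h (z * b)) := by
    have hstep : ∀ y y' b b', x₀⁻¹ * y ∈ L → x₀⁻¹ * y' ∈ L → b ∈ B → b' ∈ B → y * b ∈ P →
        y' * b' ∈ P → y⁻¹ * y' ∈ T1 → Gr.Reachable (seg a n h (y * b)) (seg a n h (y' * b')) := by
      intro y y' b b' hy hy' hb hb' hp hp' ht
      by_cases he : seg a n h (y * b) = seg a n h (y' * b')
      · rw [he]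
      · apply SimpleGraph.Adj.reachable
        rw [hadj]
        refine ⟨he, y * b, y' * b', hp, hp', ⟨b, hb, hnr y b hy⟩, ⟨b', hb', hnr y' b' hy'⟩, rfl,
          rfl, ?_⟩
        have e : (y * b)⁻¹ * (y' * b') = b⁻¹ * (y⁻¹ * y') * b' := by group
        rw [e]
        exact hB1m _ hb _ ht _ hb'
    refine hz.rec' (R := fun z => x₀⁻¹ * z ∈ L ∧ (∃ b ∈ B, z * b ∈ P) ∧ ∀ b ∈ B, z * b ∈ P →
      Gr.Reachable (seg a n h (x₀ * b₀)) (seg a n h (z * b))) ?_ ?_
    · have h1 : x₀⁻¹ * x₀ ∈ L := by rw [inv_mul_cancel]; exact L.one_mem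
      refine ⟨h1, ⟨b₀, hb₀, hxb₀⟩, fun b hb hp => ?_⟩
      apply hstep x₀ x₀ b₀ b h1 h1 hb₀ hb hxb₀ hp
      rw [inv_mul_cancel]
      exact Finset.mem_insert_self _ _
    · rintro y y' _ ⟨h1, ⟨b, hb, hp⟩, h3⟩ hs ⟨b', hb', hp'⟩
      have hy' : x₀⁻¹ * y' ∈ L := by
        have e : x₀⁻¹ * y' = (x₀⁻¹ * y) * (y⁻¹ * y') := by group
        rw [e]
        exact L.mul_mem h1 (hT _ hs)
      have ht : y⁻¹ * y' ∈ T1 := Finset.mem_insert_of_mem (Finset.mem_union_left _ hs)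
      refine ⟨hy', ⟨b', hb', hp'⟩, fun b'' hb'' hp'' => ?_⟩
      exact (h3 b hb hp).trans (hstep y y' b b'' h1 hy' hb hb'' hp hp'' ht)
  obtain ⟨hzL, ⟨b₁, hb₁, hzb₁⟩, hr⟩ := hreach
  obtain ⟨p, hp⟩ := (hr b₁ hb₁ hzb₁).exists_isPath
  -- contact points
  have hct : ∀ i, ∃ y y', i < p.length → y ∈ P ∧ y' ∈ P ∧ (∃ b ∈ B, Nr L b x₀ y) ∧
      (∃ b ∈ B, Nr L b x₀ y') ∧ seg a n h y = p.getVert i ∧
      seg a n h y' = p.getVert (i + 1) ∧ y⁻¹ * y' ∈ B1 := by
    intro i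
    by_cases hi : i < p.length
    · obtain ⟨-, y, y', hy⟩ := (hadj _ _).1 (p.adj_getVert_succ hi)
      exact ⟨y, y', fun _ => hy⟩
    · exact ⟨1, 1, fun h => absurd h hi⟩
  choose y y' hct using hct
  let x : ℕ → G := fun i => if i = 0 then x₀ * b₀ else y' (i - 1)
  have hx0 : x 0 = x₀ * b₀ := by simp [x]
  have hxs : ∀ i, x (i + 1) = y' i := by intro i; simp [x]
  have hxP : ∀ i ≤ p.length, x i ∈ P ∧ (∃ b ∈ B, Nr L b x₀ (x i)) ∧
      seg a n h (x i) = p.getVert i := by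
    intro i hi
    rcases Nat.eq_zero_or_pos i with h0 | h0
    · subst h0
      rw [hx0]
      refine ⟨hxb₀, ⟨b₀, hb₀, hnr _ _ ?_⟩, ?_⟩
      · rw [inv_mul_cancel]; exact L.one_mem
      · rw [SimpleGraph.Walk.getVert_zero]
    · obtain ⟨j, rfl⟩ : ∃ j, i = j + 1 := ⟨i - 1, by omega⟩
      rw [hxs]
      obtain ⟨-, h2, -, h4, -, h6, -⟩ := hct j (by omega)
      exact ⟨h2, h4, h6⟩
  have hxstep : ∀ i < p.length, (x i)⁻¹ * x (i + 1) ∈ S := by
    intro i hi
    obtain ⟨-, -, h3⟩ := hxP i hi.le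
    obtain ⟨-, -, -, -, h4, -, h5⟩ := hct i hi
    obtain ⟨t, ht, hty⟩ := seg_eq hn hh (h3.trans h4.symm)
    rw [hxs]
    have e : (x i)⁻¹ * y' i = a ^ t * ((y i)⁻¹ * y' i) * 1 := by
      rw [hty]
      group
    rw [e]
    exact hSm _ (hA1m t ht) _ h5 _ hA1one
  -- the length of the path
  have hlen : p.length < m := by
    by_contra hcon
    push Not at hcon
    refine hno x₀ x (fun i hi => (hxP i (by omega)).1) (fun i hi => (hxP i (by omega)).2.1)
      (fun i hi => hxstep i (by omega)) ?_ ?_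
    · intro i hi hsl
      obtain ⟨h1, -, h3⟩ := hxP i (by omega)
      obtain ⟨h1', -, h3'⟩ := hxP (i + 1) (by omega)
      obtain ⟨c1, c2, -, -, c4, c6, c5⟩ := hct i (by omega)
      have h4 : SL a (y i) (y' i) := by
        have k1 : SL a (x i) (y i) := by
          obtain ⟨t, -, ht⟩ := seg_eq hn hh (h3.trans c4.symm)
          exact ⟨t, ht⟩
        rw [hxs] at hsl
        exact k1.symm.trans hsl
      obtain ⟨t, ht⟩ := h4
      have h5 : a ^ t ∈ B1 := by
        have : (y i)⁻¹ * y' i = a ^ t := by rw [ht]; group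
        rwa [this] at c5
      have h6 := seg_eq_of_close hn hh ht (hhb t h5) (by rw [hPc _ c1, hPc _ c2])
      rw [c4, c6] at h6
      have h7 := p.adj_getVert_succ (show i < p.length by omega)
      exact h7.1 h6
    · intro i hi j hj he
      have h1 := (hxP i (by omega)).2.2
      have h2 := (hxP j (by omega)).2.2
      rw [he] at h1
      exact hp.getVert_injOn (by simp only [Set.mem_ofPred_eq]; omega)
        (by simp only [Set.mem_ofPred_eq]; omega) (h1.symm.trans h2)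
  -- the end point
  have hpw : ∀ k ≤ p.length, (x 0)⁻¹ * x k ∈ PW S k := by
    intro k
    induction k with
    | zero =>
      intro _
      rw [inv_mul_cancel]
      exact one_mem_PW S 0
    | succ k ih =>
      intro hk
      have h1 := PW_mul (ih (by omega)) (hxstep k (by omega))
      have e : (x 0)⁻¹ * x k * ((x k)⁻¹ * x (k + 1)) = (x 0)⁻¹ * x (k + 1) := by group
      rwa [e] at h1
  have h1 := PW_mono hlen.le (hpw p.length le_rfl)
  obtain ⟨-, -, h3⟩ := hxP p.length le_rfl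
  rw [SimpleGraph.Walk.getVert_length] at h3
  obtain ⟨t, ht, hty⟩ := seg_eq hn hh h3
  refine Finset.mem_image.2 ⟨(b₀, (x 0)⁻¹ * x p.length, a ^ t, b₁), ?_, ?_⟩
  · simp only [Finset.mem_product]
    exact ⟨hb₀, h1, hA1m t ht, hb₁⟩
  · simp only
    rw [hx0]
    have h5 : x p.length * a ^ t * b₁⁻¹ = z := by
      rw [← hty]
      group
    refine Eq.trans ?_ (congrArg (fun u => x₀⁻¹ * u) h5)
    group

end Pool.Agent.Helper13.FZ
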