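import Pool.Agent.Helper13.FZ.Defs
import Pool.Agent.Helper42.MC.FreeFacts

/-!
# Project FZ, M-part: lines near a leaf

`Nr L b g x`: the point `x` is in `g L b`. `cj a N g x = g⁻¹ (x a ^ N x⁻¹) g` depends only on the line of `x`. A line
near the leaf `g L` is of point type if `cj` is not in `L`, vertical if `pr cj = 1`, slanted otherwise.
-/

set_option autoImplicit false

namespace Pool.Agent.Helper13.FZ

variable {G : Type*} [Group G] {α : Type*}

/-- `x ∈ g L b` -/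
def Nr (L : Subgroup G) (b g x : G) : Prop := g⁻¹ * x * b⁻¹ ∈ L

/-- the conjugate of `x a ^ N x⁻¹` by `g⁻¹` -/
def cj (a : G) (N : ℤ) (g x : G) : G := g⁻¹ * (x * a ^ N * x⁻¹) * g

theorem cj_sl {a x y : G} (h : SL a x y) (N : ℤ) (g : G) : cj a N g x = cj a N g y := by
  unfold cj
  rw [h.conj N]

theorem cj_eq (a : G) (N : ℤ) (g x b : G) :
    cj a N g x = (g⁻¹ * x * b⁻¹) * (b * a ^ N * b⁻¹) * (g⁻¹ * x * b⁻¹)⁻¹ := by
  unfold cj
  group

/-- a common exponent -/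
theorem exists_exp (L : Subgroup G) (a : G) (B : Finset G) :
    ∃ N : ℤ, N ≠ 0 ∧ ∀ b ∈ B, ∀ k : ℤ, k ≠ 0 → b * a ^ k * b⁻¹ ∈ L → b * a ^ N * b⁻¹ ∈ L := by
  classical
  induction B using Finset.induction_on with
  | empty => exact ⟨1, one_ne_zero, fun b hb => absurd hb (Finset.notMem_empty b)⟩
  | insert c B hc ih =>
    obtain ⟨N, hN, h⟩ := ih
    have hmul : ∀ (b : G) (k l : ℤ), b * a ^ k * b⁻¹ ∈ L → b * a ^ (k * l) * b⁻¹ ∈ L := by
      intro b k l hk
      have e : b * a ^ (k * l) * b⁻¹ = (b * a ^ k * b⁻¹) ^ l := by rw [conj_zpow, ← zpow_mul]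
      rw [e]
      exact L.zpow_mem hk l
    by_cases hk : ∃ k : ℤ, k ≠ 0 ∧ c * a ^ k * c⁻¹ ∈ L
    · obtain ⟨k, hk0, hk⟩ := hk
      refine ⟨N * k, mul_ne_zero hN hk0, fun b hb l hl hbl => ?_⟩
      rcases Finset.mem_insert.1 hb with rfl | hb
      · rw [mul_comm]
        exact hmul _ _ _ hk
      · exact hmul _ _ _ (h b hb l hl hbl)
    · refine ⟨N, hN, fun b hb l hl hbl => ?_⟩
      rcases Finset.mem_insert.1 hb with rfl | hb
      · exact absurd ⟨l, hl, hbl⟩ hk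
      · exact h b hb l hl hbl

section

variable {L : Subgroup G} {a : G} {pr : G → FreeGroup α} {ht : G → ℤ} {N : ℤ} {g x y b : G}

/-- for points near the leaf the type depends on `b` -/
theorem cj_mem_iff (hx : Nr L b g x) : cj a N g x ∈ L ↔ b * a ^ N * b⁻¹ ∈ L := by
  rw [cj_eq a N g x b]
  have hl : g⁻¹ * x * b⁻¹ ∈ L := hx
  rw [Subgroup.mul_mem_cancel_right _ (L.inv_mem hl), Subgroup.mul_mem_cancel_left _ hl]

/-- points of a line of point type -/
theorem eq_of_point (hNb : ∀ k : ℤ, k ≠ 0 → b * a ^ k * b⁻¹ ∈ L → b * a ^ N * b⁻¹ ∈ L)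
    (hx : Nr L b g x) (hy : Nr L b g y) (hxy : SL a x y) (hc : cj a N g x ∉ L) : x = y := by
  obtain ⟨t, rfl⟩ := hxy
  by_cases ht : t = 0
  · rw [ht, zpow_zero, mul_one]
  · exfalso
    rw [cj_mem_iff hx] at hc
    apply hc
    apply hNb t ht
    have h1 := L.mul_mem (L.inv_mem hx) hy
    have h2 : (g⁻¹ * x * b⁻¹)⁻¹ * (g⁻¹ * (x * a ^ t) * b⁻¹) = b * a ^ t * b⁻¹ := by group
    rwa [h2] at h1

/-- vertical lines are parallel -/
theorem par_of_vert (hE : Emb L a pr ht) (hN : N ≠ 0) (hx : cj a N g x ∈ L) (hy : cj a N g y ∈ L)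
    (h1 : pr (cj a N g x) = 1) (h2 : pr (cj a N g y) = 1) : Par a x y := by
  have hne : ∀ z, cj a N g z ∈ L → ht (cj a N g z) ≠ 0 ∨ pr (cj a N g z) ≠ 1 := by
    intro z hz
    by_contra hcon
    push Not at hcon
    have h3 := hE.inj _ hz hcon.2 hcon.1
    unfold cj at h3
    have h4 : a ^ N = 1 := by
      calc a ^ N = z⁻¹ * g * (g⁻¹ * (z * a ^ N * z⁻¹) * g) * g⁻¹ * z := by group
        _ = 1 := by rw [h3]; group
    exact hN (hE.zpow_eq_one N h4)
  have hx0 : ht (cj a N g x) ≠ 0 := (hne x hx).resolve_right (fun h => h h1)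
  have hy0 : ht (cj a N g y) ≠ 0 := (hne y hy).resolve_right (fun h => h h2)
  have ex := hE.eq_zpow hx h1
  have ey := hE.eq_zpow hy h2
  have key : ∀ z : G, ∀ l : ℤ, cj a N g z = a ^ ht (cj a N g z) →
      z * a ^ (N * l) * z⁻¹ = g * a ^ (ht (cj a N g z) * l) * g⁻¹ := by
    intro z l hz
    have h3 : z * a ^ N * z⁻¹ = g * a ^ ht (cj a N g z) * g⁻¹ := by
      rw [← hz]
      unfold cj
      group
    calc z * a ^ (N * l) * z⁻¹ = (z * a ^ N * z⁻¹) ^ l := by rw [conj_zpow, ← zpow_mul]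
      _ = (g * a ^ ht (cj a N g z) * g⁻¹) ^ l := by rw [h3]
      _ = g * a ^ (ht (cj a N g z) * l) * g⁻¹ := by rw [conj_zpow, ← zpow_mul]
  refine ⟨N * ht (cj a N g y), N * ht (cj a N g x), mul_ne_zero hN hy0, mul_ne_zero hN hx0, ?_⟩
  rw [key x _ ex, key y _ ey, mul_comm]

/-- lines over the same axis with the same `b` are parallel -/
theorem par_of_same (hE : Emb L a pr ht) (hN : N ≠ 0) (hbx : Nr L b g x) (hby : Nr L b g y)
    (hx : cj a N g x ∈ L) (hc : Commute (pr (cj a N g x)) (pr (cj a N g y))) : Par a x y := by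
  have hb : b * a ^ N * b⁻¹ ∈ L := (cj_mem_iff hbx).1 hx
  have hy : cj a N g y ∈ L := (cj_mem_iff hby).2 hb
  set l := g⁻¹ * x * b⁻¹ with hl
  set l' := g⁻¹ * y * b⁻¹ with hl'
  have hlL : l ∈ L := hbx
  have hlL' : l' ∈ L := hby
  have ex : cj a N g x = l * (b * a ^ N * b⁻¹) * l⁻¹ := cj_eq a N g x b
  have ey : cj a N g y = l' * (b * a ^ N * b⁻¹) * l'⁻¹ := cj_eq a N g y b
  have px : pr (cj a N g x) = pr l * pr (b * a ^ N * b⁻¹) * (pr l)⁻¹ := by
    rw [ex, hE.pr_conj hlL hb]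
  have py : pr (cj a N g y) = pr l' * pr (b * a ^ N * b⁻¹) * (pr l')⁻¹ := by
    rw [ey, hE.pr_conj hlL' hb]
  have hv : pr (cj a N g y) = (pr l' * (pr l)⁻¹) * pr (cj a N g x) * (pr l' * (pr l)⁻¹)⁻¹ := by
    rw [px, py]
    group
  have hcomm : Commute (pr l' * (pr l)⁻¹) (pr (cj a N g x)) := by
    apply MC.conj_commute
    rw [← hv]
    exact hc
  have hpr : pr (cj a N g x) = pr (cj a N g y) := by
    rw [hv, hcomm.eq, mul_inv_cancel_right]
  have hht : ht (cj a N g x) = ht (cj a N g y) := by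
    rw [ex, ey, hE.ht_conj hlL hb, hE.ht_conj hlL' hb]
  have h2 := hE.ext hx hy hpr hht
  refine ⟨N, N, hN, hN, ?_⟩
  unfold cj at h2
  exact mul_left_cancel (mul_right_cancel h2)

/-- parallel lines are over the same axis -/
theorem comm_of_par (hE : Emb L a pr ht) (hx : cj a N g x ∈ L) (hy : cj a N g y ∈ L)
    (h : Par a x y) : Commute (pr (cj a N g x)) (pr (cj a N g y)) := by
  obtain ⟨p, q, hp, hq, h⟩ := h
  by_cases h1 : pr (cj a N g x) = 1
  · rw [h1]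
    exact Commute.one_left _
  have e : ∀ (z : G) (l : ℤ), (cj a N g z) ^ l = g⁻¹ * (z * a ^ l * z⁻¹) ^ N * g := by
    intro z l
    have h3 : cj a N g z = g⁻¹ * (z * a ^ N * z⁻¹) * (g⁻¹)⁻¹ := by
      rw [inv_inv]
      rfl
    rw [h3, conj_zpow, conj_zpow, conj_zpow, ← zpow_mul, ← zpow_mul, inv_inv, mul_comm]
  have h2 : (cj a N g x) ^ p = (cj a N g y) ^ q := by
    rw [e, e, h]
  have h3 : pr (cj a N g x) ^ p = pr (cj a N g y) ^ q := by
    rw [← hE.pr_zpow hx, ← hE.pr_zpow hy, h2]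
  have h4 : pr (cj a N g x) ^ p ≠ 1 := fun h5 => h1 (MC.free_torsion hp h5)
  apply MC.commute_trans h4
  · exact (Commute.refl _).zpow_right p
  · rw [h3]
    exact (Commute.refl _).zpow_left q

end

end Pool.Agent.Helper13.FZ
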