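import Pool.Agent.Helper13.FZ.Change
import Pool.Agent.Helper13.FZ.Counts
import Pool.Agent.Helper13.FZ.Det
import Pool.Agent.Helper65.FZ.Coord

/-!
# Project FZ: the M-part

The marked blocks of the lines `x ⟨a⟩`, coloured with two colours by the segments of length `h`: the thickened sets
have bounded chains in the leaves, if certain events do not take place. Events (with all blocks of the event marked):
(A) two blocks on different parallel lines which contain `Q`-close points; (P) paths of `m + 1` points near a leaf.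
By the linear bound an event (P) contains at least `(m + 1) / C` blocks, so for large `m` the events are rare.
-/

set_option autoImplicit false

universe u

namespace Pool.Agent.Helper13.FZ

open Pool.Agent.Helper65.TH (Chain)
open Pool.Agent.Helper65.GN (Bdd)
open Pool.Agent.Helper65.FZ (Ivs el ps fz ps_mul_el el_mem psi_el el_zpow)

/-- the numbers -/
theorem path_num (D : ℕ) (w : ℕ) (β : ℝ) (hβ : 0 ≤ β) : ∃ m : ℕ,
    ((m : ℝ) + 1) * (4 * w * (D : ℝ) ^ m) * (β / ((2 * (D : ℝ) + 2) ^ (m + 1))) ≤ 1 / 16 := by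
  have hlim : Filter.Tendsto (fun k : ℕ => (4 * w * β) * ((k : ℝ) * (1 / 2 : ℝ) ^ k)) Filter.atTop
      (nhds ((4 * w * β) * 0)) :=
    (tendsto_self_mul_const_pow_of_lt_one (by norm_num) (by norm_num)).const_mul _
  rw [mul_zero] at hlim
  have hev := hlim.eventually (gt_mem_nhds (show (0 : ℝ) < 1 / 16 by norm_num))
  rw [Filter.eventually_atTop] at hev
  obtain ⟨κ, hκ⟩ := hev
  refine ⟨κ, ?_⟩
  have h1 := hκ (κ + 1) (by omega)
  refine le_trans ?_ h1.le
  have hD : (0 : ℝ) ≤ D := Nat.cast_nonneg D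
  have h2 : (D : ℝ) ^ κ / (2 * (D : ℝ) + 2) ^ (κ + 1) ≤ (1 / 2 : ℝ) ^ (κ + 1) := by
    rw [div_le_iff₀ (by positivity)]
    have h3 : (1 / 2 : ℝ) ^ (κ + 1) * (2 * (D : ℝ) + 2) ^ (κ + 1) = ((D : ℝ) + 1) ^ (κ + 1) := by
      rw [← mul_pow]
      congr 1
      ring
    rw [h3]
    calc (D : ℝ) ^ κ ≤ ((D : ℝ) + 1) ^ κ := pow_le_pow_left₀ hD (by linarith) κ
      _ ≤ ((D : ℝ) + 1) ^ (κ + 1) := pow_le_pow_right₀ (by linarith) (Nat.le_succ κ)
  calc ((κ : ℝ) + 1) * (4 * w * (D : ℝ) ^ κ) * (β / ((2 * (D : ℝ) + 2) ^ (κ + 1)))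
      = (4 * w * β) * (((κ : ℝ) + 1) * ((D : ℝ) ^ κ / (2 * (D : ℝ) + 2) ^ (κ + 1))) := by ring
    _ ≤ (4 * w * β) * (((κ : ℝ) + 1) * (1 / 2 : ℝ) ^ (κ + 1)) := by gcongr
    _ = (4 * w * β) * (((κ + 1 : ℕ) : ℝ) * (1 / 2 : ℝ) ^ (κ + 1)) := by push_cast; ring

section emb

variable {G : Type u} [Group G] {L : Subgroup G} {r : ℕ}
  (ψ : L ≃* FreeGroup (Fin r) × Multiplicative ℤ)

open Classical in
/-- the first coordinate -/
noncomputable def prF (x : G) : FreeGroup (Fin r) := if h : x ∈ L then (ψ ⟨x, h⟩).1 else 1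

open Classical in
/-- the second coordinate -/
noncomputable def htF (x : G) : ℤ :=
  if h : x ∈ L then Multiplicative.toAdd (ψ ⟨x, h⟩).2 else 0

theorem emb : Emb L (el ψ 1 1) (prF ψ) (htF ψ) := by
  have h1 : ψ ⟨el ψ 1 1, el_mem ψ 1 1⟩ = (1, Multiplicative.ofAdd 1) := by
    have : (⟨el ψ 1 1, el_mem ψ 1 1⟩ : L) = ψ.symm (1, Multiplicative.ofAdd 1) := rfl
    rw [this, MulEquiv.apply_symm_apply]
  refine ⟨el_mem ψ 1 1, ?_, ?_, ?_, ?_, ?_⟩
  · intro x hx y hy
    have e : (⟨x * y, L.mul_mem hx hy⟩ : L) = ⟨x, hx⟩ * ⟨y, hy⟩ := rfl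
    rw [prF, prF, prF, dif_pos hx, dif_pos hy, dif_pos (L.mul_mem hx hy), e, map_mul,
      Prod.fst_mul]
  · intro x hx y hy
    have e : (⟨x * y, L.mul_mem hx hy⟩ : L) = ⟨x, hx⟩ * ⟨y, hy⟩ := rfl
    rw [htF, htF, htF, dif_pos hx, dif_pos hy, dif_pos (L.mul_mem hx hy), e, map_mul,
      Prod.snd_mul, toAdd_mul]
  · rw [prF, dif_pos (el_mem ψ 1 1), h1]
  · rw [htF, dif_pos (el_mem ψ 1 1), h1, toAdd_ofAdd]
  · intro x hx h2 h3
    rw [prF, dif_pos hx] at h2
    rw [htF, dif_pos hx] at h3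
    have h4 : ψ ⟨x, hx⟩ = 1 := by
      apply Prod.ext
      · exact h2
      · exact Multiplicative.toAdd.injective h3
    have h5 : (⟨x, hx⟩ : L) = 1 := by
      apply ψ.injective
      rw [h4, map_one]
    exact congrArg Subtype.val h5

end emb

theorem mpart {G : Type u} [Group G] {L : Subgroup G} {r : ℕ}
    (ψ : L ≃* FreeGroup (Fin r) × Multiplicative ℤ) (T B : Finset G) (hT : ∀ t ∈ T, t ∈ L) :
    ∃ h N₀ : ℕ, 0 < h ∧ ∀ N, N₀ ≤ N → ∀ w : ℕ, 1 ≤ w → ∀ (V : Type u) (iv : G → V),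
    Ivs (el ψ 1 1) w iv → ∃ (Ev : Set (Finset V)) (inc : V → Finset (Finset V)) (E : Finset G),
      (∀ e ∈ Ev, e.Nonempty) ∧ (∀ e ∈ Ev, ∀ v ∈ e, e ∈ inc v) ∧
      (∀ v, ∑ e ∈ inc v, 1 / ((N : ℝ) - 1 / 2) ^ (e.card - 1) ≤ 1 / 8) ∧
      ∀ Mk : Set V, (∀ e ∈ Ev, ∃ v ∈ e, v ∉ Mk) → ∀ c : ℤ,
        Bdd (T : Set G) {x | ∃ b ∈ B, iv (x * b) ∈ Mk ∧ (ps ψ (x * b) / h) % 2 = c} E := by
  classical
  set a : G := el ψ 1 1 with ha
  have hE := emb ψ
  rw [← ha] at hE
  have hn : ∀ x, ps ψ (x * a) = ps ψ x + 1 := fun x => ps_mul_el ψ x 1 1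
  obtain ⟨h, S, hh, hS, hdet⟩ := det hE.zpow_eq_one (ps ψ) hn T B hT
  obtain ⟨Q, C, hLB⟩ := linear_bound hE B S hS
  set Qs : Finset G := Q ∪ Q.image (fun s => s⁻¹) with hQs
  have hQsi : ∀ s ∈ Qs, s⁻¹ ∈ Qs := by
    intro s hs
    rcases Finset.mem_union.1 hs with hs | hs
    · exact Finset.mem_union_right _ (Finset.mem_image_of_mem _ hs)
    · obtain ⟨u, hu, rfl⟩ := Finset.mem_image.1 hs
      rw [inv_inv]
      exact Finset.mem_union_left _ hu
  obtain ⟨cA, hcA⟩ := count_par.{u, u} a Qs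
  refine ⟨h, 16 * cA + (2 * S.card + 2) ^ C + 2, hh, ?_⟩
  intro N hN w hw V iv hI
  set β : ℝ := (N : ℝ) - 1 / 2 with hβ
  have hNr : ((16 * cA + (2 * S.card + 2) ^ C + 2 : ℕ) : ℝ) ≤ N := by exact_mod_cast hN
  push_cast at hNr
  have hp1 : (0 : ℝ) ≤ (2 * (S.card : ℝ) + 2) ^ C := by positivity
  have hp2 : (0 : ℝ) ≤ cA := Nat.cast_nonneg _
  have hβ1 : 1 ≤ β := by rw [hβ]; linarith
  have hβA : 16 * (cA : ℝ) ≤ β := by rw [hβ]; linarith
  have hβD : (2 * (S.card : ℝ) + 2) ^ C ≤ β := by rw [hβ]; linarith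
  have hβ0 : 0 < β := by linarith
  obtain ⟨m, hm⟩ := path_num S.card w β hβ0.le
  obtain ⟨E, hE2⟩ := hdet m
  -- events
  let EvA : Set (Finset V) := {e | ∃ x y, Par a x y ∧ ¬ SL a x y ∧ x⁻¹ * y ∈ Qs ∧
    e = {iv x, iv y}}
  let EvP : Set (Finset V) := {e | ∃ (g : G) (x : ℕ → G), Pth L a B S Q m g x ∧
    e = (Finset.range (m + 1)).image (fun i => iv (x i))}
  choose Φ hΦ1 hΦ2 using hcA w hw iv hI
  choose X hX1 hX2 using count_paths hI S m
  let incA : V → Finset (Finset V) := fun v =>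
    ((Φ v).image (fun u => ({v, u} : Finset V))).filter (fun e => e ∈ EvA)
  let incP : V → Finset (Finset V) := fun v =>
    ((X v).image (fun x => Finset.univ.image (fun i => iv (x i)))).filter (fun e => e ∈ EvP)
  -- lines and blocks
  have hivsl : ∀ x y, iv x = iv y → SL a x y := by
    intro x y hxy
    obtain ⟨j, -, hj⟩ := hI.line x y hxy
    exact ⟨j, hj⟩
  have hcard : ∀ (g : G) (x : ℕ → G), Pth L a B S Q m g x →
      m + 1 ≤ C * ((Finset.range (m + 1)).image (fun i => iv (x i))).card := by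
    intro g x hx
    refine (hLB m g x hx).trans (Nat.mul_le_mul_left _ ?_)
    let f : V → G ⧸ Subgroup.zpowers a := fun v =>
      if hv : ∃ y, iv y = v then ((hv.choose : G) : G ⧸ Subgroup.zpowers a) else
        ((1 : G) : G ⧸ Subgroup.zpowers a)
    have hf : ∀ y, f (iv y) = (y : G ⧸ Subgroup.zpowers a) := by
      intro y
      have hv : ∃ z, iv z = iv y := ⟨y, rfl⟩
      simp only [f, dif_pos hv]
      exact SL.iff_mk.1 (hivsl _ _ hv.choose_spec)
    have hsub : lns a m x ⊆ ((Finset.range (m + 1)).image (fun i => iv (x i))).image f := by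
      intro ℓ hℓ
      obtain ⟨i, hi, rfl⟩ := Finset.mem_image.1 hℓ
      exact Finset.mem_image.2 ⟨iv (x i), Finset.mem_image_of_mem _ hi, hf _⟩
    exact (Finset.card_le_card hsub).trans Finset.card_image_le
  refine ⟨EvA ∪ EvP, fun v => incA v ∪ incP v, E, ?_, ?_, ?_, ?_⟩
  · rintro e (⟨x, y, -, -, -, rfl⟩ | ⟨g, x, -, rfl⟩)
    · exact ⟨_, Finset.mem_insert_self _ _⟩
    · exact ⟨_, Finset.mem_image_of_mem _ (Finset.mem_range.2 (Nat.succ_pos m))⟩
  · rintro e he v hv
    rcases he with he | he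
    · apply Finset.mem_union_left
      refine Finset.mem_filter.2 ⟨?_, he⟩
      obtain ⟨x, y, h1, h2, h3, rfl⟩ := he
      rcases Finset.mem_insert.1 hv with rfl | hv
      · exact Finset.mem_image.2 ⟨iv y, hΦ2 _ x y rfl h3 h1, rfl⟩
      · rw [Finset.mem_singleton] at hv
        subst hv
        have h4 := hQsi _ h3
        rw [mul_inv_rev, inv_inv] at h4
        refine Finset.mem_image.2 ⟨iv x, hΦ2 _ y x rfl h4 h1.symm, ?_⟩
        exact Finset.pair_comm _ _
    · apply Finset.mem_union_right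
      refine Finset.mem_filter.2 ⟨?_, he⟩
      obtain ⟨g, x, h1, rfl⟩ := he
      refine Finset.mem_image.2 ⟨fun i : Fin (m + 1) => x i, ?_, ?_⟩
      · apply hX2
        · intro j
          exact h1.step j j.2
        · obtain ⟨i, hi, rfl⟩ := Finset.mem_image.1 hv
          exact ⟨⟨i, Finset.mem_range.1 hi⟩, rfl⟩
      · ext u
        simp only [Finset.mem_image, Finset.mem_univ, true_and, Finset.mem_range]
        constructor
        · rintro ⟨i, rfl⟩
          exact ⟨i, i.2, rfl⟩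
        · rintro ⟨i, hi, rfl⟩
          exact ⟨⟨i, hi⟩, rfl⟩
  · intro v
    have hA : ∑ e ∈ incA v, 1 / β ^ (e.card - 1) ≤ 1 / 16 := by
      have h1 : ∀ e ∈ incA v, 1 / β ^ (e.card - 1) = 1 / β := by
        intro e he
        obtain ⟨x, y, h1, h2, h3, rfl⟩ := (Finset.mem_filter.1 he).2
        have h4 : ({iv x, iv y} : Finset V).card = 2 :=
          Finset.card_pair fun h5 => h2 (hivsl _ _ h5)
        rw [h4]
        norm_num
      rw [Finset.sum_congr rfl h1, Finset.sum_const, nsmul_eq_mul]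
      have h2 : ((incA v).card : ℝ) ≤ cA := by
        have : (incA v).card ≤ cA :=
          (Finset.card_filter_le _ _).trans (Finset.card_image_le.trans (hΦ1 v))
        exact_mod_cast this
      rw [mul_one_div, div_le_div_iff₀ hβ0 (by norm_num)]
      linarith
    have hPs : ∑ e ∈ incP v, 1 / β ^ (e.card - 1) ≤ 1 / 16 := by
      have h1 : ∀ e ∈ incP v, 1 / β ^ (e.card - 1) ≤
          β / ((2 * (S.card : ℝ) + 2) ^ (m + 1)) := by
        intro e he
        obtain ⟨g, x, h1, rfl⟩ := (Finset.mem_filter.1 he).2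
        have h2 := hcard g x h1
        set s := ((Finset.range (m + 1)).image (fun i => iv (x i))).card with hs
        have hs0 : 0 < s := by
          rcases Nat.eq_zero_or_pos s with h3 | h3
          · rw [h3, mul_zero] at h2
            omega
          · exact h3
        have h3 : (2 * (S.card : ℝ) + 2) ^ (m + 1) ≤ β ^ s := by
          calc (2 * (S.card : ℝ) + 2) ^ (m + 1) ≤ (2 * (S.card : ℝ) + 2) ^ (C * s) :=
                pow_le_pow_right₀ (by
                  have : (0 : ℝ) ≤ S.card := Nat.cast_nonneg _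
                  linarith) h2
            _ = ((2 * (S.card : ℝ) + 2) ^ C) ^ s := by rw [pow_mul]
            _ ≤ β ^ s := pow_le_pow_left₀ hp1 hβD s
        have h4 : β ^ s = β ^ (s - 1) * β := by
          rw [← pow_succ]
          congr 1
          omega
        rw [div_le_div_iff₀ (by positivity) (by positivity), one_mul, mul_comm β, ← h4]
        exact h3
      refine (Finset.sum_le_sum h1).trans ?_
      rw [Finset.sum_const, nsmul_eq_mul]
      refine le_trans ?_ hm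
      have h2 : ((incP v).card : ℝ) ≤ ((m : ℝ) + 1) * (4 * w * (S.card : ℝ) ^ m) := by
        have : (incP v).card ≤ (m + 1) * (4 * w * S.card ^ m) :=
          (Finset.card_filter_le _ _).trans (Finset.card_image_le.trans (hX1 v))
        exact_mod_cast this
      exact mul_le_mul_of_nonneg_right h2 (by positivity)
    have h3 : ∑ e ∈ incA v ∪ incP v, 1 / β ^ (e.card - 1) ≤
        ∑ e ∈ incA v, 1 / β ^ (e.card - 1) + ∑ e ∈ incP v, 1 / β ^ (e.card - 1) := by
      rw [← Finset.sum_union_inter]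
      have : 0 ≤ ∑ e ∈ incA v ∩ incP v, 1 / β ^ (e.card - 1) :=
        Finset.sum_nonneg fun e _ => by positivity
      linarith
    refine h3.trans ?_
    linarith
  · intro Mk hMk c
    have hP := hE2 {x | iv x ∈ Mk ∧ (ps ψ x / h) % 2 = c} c (fun x hx => hx.2) (by
      intro g x h1 h2 h3 h4 h5
      have hpth : Pth L a B S Q m g x := by
        refine ⟨h2, h3, h4, h5, ?_⟩
        intro i hi j hj hpar hq
        by_contra hsl
        obtain ⟨v, hv, hvM⟩ := hMk {iv (x i), iv (x j)}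
          (Or.inl ⟨x i, x j, hpar, hsl, Finset.mem_union_left _ hq, rfl⟩)
        apply hvM
        rcases Finset.mem_insert.1 hv with rfl | hv
        · exact (h1 i hi).1
        · rw [Finset.mem_singleton] at hv
          subst hv
          exact (h1 j hj).1
      obtain ⟨v, hv, hvM⟩ := hMk _ (Or.inr ⟨g, x, hpth, rfl⟩)
      apply hvM
      obtain ⟨i, hi, rfl⟩ := Finset.mem_image.1 hv
      exact (h1 i (by have := Finset.mem_range.1 hi; omega)).1)
    exact hP

end Pool.Agent.Helper13.FZ
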