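import Pool.Agent.Helper13.FZ.Lines

/-!
# Project FZ, M-part: paths of points near a leaf; windows

`Pth L a B S Q m g x`: the points `x 0, ..., x m` are different, near the leaf `g L`, the steps are in `S`,
consecutive points are on different lines, and `Q`-close points are on the same line or on lines which are not
parallel. Every window of `σ = (|B| + 1)² |S| + 2` consecutive points contains a point on a line of point type
or a change: two points at distance `1` or `2` on lines over different axes.
-/

set_option autoImplicit false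

namespace Pool.Agent.Helper13.FZ

variable {G : Type*} [Group G] {α : Type*}

/-- paths of points near the leaf `g L` -/
structure Pth (L : Subgroup G) (a : G) (B S Q : Finset G) (m : ℕ) (g : G) (x : ℕ → G) : Prop where
  near : ∀ i ≤ m, ∃ b ∈ B, Nr L b g (x i)
  step : ∀ i < m, (x i)⁻¹ * x (i + 1) ∈ S
  line : ∀ i < m, ¬ SL a (x i) (x (i + 1))
  inj : ∀ i ≤ m, ∀ j ≤ m, x i = x j → i = j
  sep : ∀ i ≤ m, ∀ j ≤ m, Par a (x i) (x j) → (x i)⁻¹ * x j ∈ Q → SL a (x i) (x j)

open Classical in
/-- products of at most `k` elements of `S` -/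
noncomputable def PW (S : Finset G) : ℕ → Finset G
  | 0 => {1}
  | (k + 1) => Finset.image₂ (fun a b => a * b) (PW S k) (insert 1 S)

theorem PW_mul {S : Finset G} {k : ℕ} {u s : G} (hu : u ∈ PW S k) (hs : s ∈ S) :
    u * s ∈ PW S (k + 1) := by
  classical
  rw [PW]
  exact Finset.mem_image₂.2 ⟨u, hu, s, Finset.mem_insert_of_mem hs, rfl⟩

theorem PW_succ {S : Finset G} {k : ℕ} : PW S k ⊆ PW S (k + 1) := by
  classical
  intro u hu
  rw [PW]
  exact Finset.mem_image₂.2 ⟨u, hu, 1, Finset.mem_insert_self _ _, mul_one u⟩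

theorem PW_mono {S : Finset G} {k l : ℕ} (h : k ≤ l) : PW S k ⊆ PW S l := by
  induction l, h using Nat.le_induction with
  | base => exact Finset.Subset.refl _
  | succ l _ ih => exact ih.trans PW_succ

theorem one_mem_PW (S : Finset G) (k : ℕ) : (1 : G) ∈ PW S k := by
  apply PW_mono (Nat.zero_le k)
  rw [PW]
  exact Finset.mem_singleton_self _

variable {L : Subgroup G} {a : G} {pr : G → FreeGroup α} {ht : G → ℤ} {N : ℤ} {B S Q : Finset G}
  {m : ℕ} {g : G} {x : ℕ → G}

theorem Pth.pw (hP : Pth L a B S Q m g x) (i k : ℕ) (h : i + k ≤ m) :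
    (x i)⁻¹ * x (i + k) ∈ PW S k := by
  induction k with
  | zero =>
    rw [add_zero, inv_mul_cancel]
    exact one_mem_PW S 0
  | succ k ih =>
    have h1 := ih (by omega)
    have h2 := hP.step (i + k) (by omega)
    have h3 := PW_mul h1 h2
    have e : (x i)⁻¹ * x (i + k) * ((x (i + k))⁻¹ * x (i + k + 1)) = (x i)⁻¹ * x (i + (k + 1)) := by
      rw [add_assoc]
      group
    rwa [e] at h3

/-- the window lemma -/
theorem window (hE : Emb L a pr ht) (hN : N ≠ 0) (hQ : PW S ((B.card + 1) ^ 2 * S.card + 2) ⊆ Q)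
    (hP : Pth L a B S Q m g x) (i : ℕ) (hi : i + ((B.card + 1) ^ 2 * S.card + 2) ≤ m + 1) :
    ∃ j, i ≤ j ∧ j < i + ((B.card + 1) ^ 2 * S.card + 2) ∧ (cj a N g (x j) ∉ L ∨
      ∃ k, (k = j + 1 ∨ k = j + 2) ∧ k ≤ m ∧ cj a N g (x j) ∈ L ∧ cj a N g (x k) ∈ L ∧
        ¬ Commute (pr (cj a N g (x j))) (pr (cj a N g (x k)))) := by
  classical
  set σ := (B.card + 1) ^ 2 * S.card + 2 with hσ
  by_contra hcon
  push Not at hcon
  have hall : ∀ j, i ≤ j → j < i + σ → cj a N g (x j) ∈ L := fun j h1 h2 => (hcon j h1 h2).1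
  have hnc : ∀ j k, i ≤ j → (k = j + 1 ∨ k = j + 2) → k < i + σ →
      Commute (pr (cj a N g (x j))) (pr (cj a N g (x k))) := by
    intro j k h1 h2 h3
    exact (hcon j h1 (by omega)).2 k h2 (by omega) (hall j h1 (by omega)) (hall k (by omega) h3)
  -- close parallel points are on the same line
  have hsl : ∀ j k, i ≤ j → j ≤ k → k < i + σ → Par a (x j) (x k) → SL a (x j) (x k) := by
    intro j k h1 h2 h3 hpar
    apply hP.sep j (by omega) k (by omega) hpar
    apply hQ
    apply PW_mono (show k - j ≤ σ by omega)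
    have := hP.pw j (k - j) (by omega)
    rwa [show j + (k - j) = k by omega] at this
  have hvv : ∀ j, i ≤ j → j + 1 < i + σ → pr (cj a N g (x j)) = 1 →
      pr (cj a N g (x (j + 1))) ≠ 1 := by
    intro j h1 h2 h3 h4
    apply hP.line j (by omega)
    apply hsl j (j + 1) h1 (by omega) h2
    exact par_of_vert hE hN (hall j h1 (by omega)) (hall (j + 1) (by omega) h2) h3 h4
  -- all slanted lines are over the same axis
  have hcomm : ∀ d j, i ≤ j → j + d < i + σ → pr (cj a N g (x j)) ≠ 1 →
      pr (cj a N g (x (j + d))) ≠ 1 →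
      Commute (pr (cj a N g (x j))) (pr (cj a N g (x (j + d)))) := by
    intro d
    induction d using Nat.strong_induction_on with
    | _ d ih =>
      intro j h1 h2 h3 h4
      rcases Nat.eq_zero_or_pos d with hd | hd
      · subst hd
        exact Commute.refl _
      by_cases hd1 : d = 1
      · subst hd1
        exact hnc j (j + 1) h1 (Or.inl rfl) h2
      by_cases h5 : pr (cj a N g (x (j + (d - 1)))) = 1
      · have h6 : pr (cj a N g (x (j + (d - 2)))) ≠ 1 := by
          intro h7
          apply hvv (j + (d - 2)) (by omega) (by omega) h7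
          rwa [show j + (d - 2) + 1 = j + (d - 1) by omega]
        have h7 := ih (d - 2) (by omega) j h1 (by omega) h3 h6
        have h8 := hnc (j + (d - 2)) (j + d) (by omega) (by omega) h2
        exact MC.commute_trans h6 h7 h8
      · have h7 := ih (d - 1) (by omega) j h1 (by omega) h3 h5
        have h8 := hnc (j + (d - 1)) (j + d) (by omega) (by omega) h2
        exact MC.commute_trans h5 h7 h8
  -- labels
  have hb : ∀ j, ∃ b, j ≤ m → b ∈ B ∧ Nr L b g (x j) := by
    intro j
    by_cases hj : j ≤ m
    · obtain ⟨b, hb, hb'⟩ := hP.near j hj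
      exact ⟨b, fun _ => ⟨hb, hb'⟩⟩
    · exact ⟨1, fun h => absurd h hj⟩
  choose b hb using hb
  let lab : ℕ → Option G := fun j => if pr (cj a N g (x j)) = 1 then none else some (b j)
  have hlab : ∀ j k, i ≤ j → j ≤ k → k < i + σ → lab j = lab k → SL a (x j) (x k) := by
    intro j k h1 h2 h3 h4
    apply hsl j k h1 h2 h3
    by_cases h5 : pr (cj a N g (x j)) = 1
    · by_cases h6 : pr (cj a N g (x k)) = 1
      · exact par_of_vert hE hN (hall j h1 (by omega)) (hall k (by omega) h3) h5 h6
      · simp [lab, h5, h6] at h4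
    · by_cases h6 : pr (cj a N g (x k)) = 1
      · simp [lab, h5, h6] at h4
      · have h7 : b j = b k := by simpa [lab, h5, h6] using h4
        have h8 := (hb j (by omega)).2
        have h9 := (hb k (by omega)).2
        rw [← h7] at h9
        apply par_of_same hE hN h8 h9 (hall j h1 (by omega))
        have h10 := hcomm (k - j) j h1 (by omega) h5 (by rwa [show j + (k - j) = k by omega])
        rwa [show j + (k - j) = k by omega] at h10
  -- pigeonhole
  have hpig : ∃ j ∈ Finset.Ico i (i + (σ - 1)), ∃ k ∈ Finset.Ico i (i + (σ - 1)), j ≠ k ∧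
      (lab j, lab (j + 1), (x j)⁻¹ * x (j + 1)) = (lab k, lab (k + 1), (x k)⁻¹ * x (k + 1)) := by
    apply Finset.exists_ne_map_eq_of_card_lt_of_maps_to
      (t := (Finset.insertNone B) ×ˢ (Finset.insertNone B) ×ˢ S)
      (f := fun j => (lab j, lab (j + 1), (x j)⁻¹ * x (j + 1)))
    · rw [Finset.card_product, Finset.card_product, Finset.card_insertNone, Nat.card_Ico]
      have : i + (σ - 1) - i = (B.card + 1) ^ 2 * S.card + 1 := by omega
      rw [this]
      have : (B.card + 1) * ((B.card + 1) * S.card) = (B.card + 1) ^ 2 * S.card := by ring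
      omega
    · have hl : ∀ j, j ≤ m → lab j ∈ Finset.insertNone B := by
        intro j hj
        by_cases h5 : pr (cj a N g (x j)) = 1
        · simp [lab, h5]
        · simp only [lab, if_neg h5]
          rw [Finset.mem_insertNone]
          intro c hc
          simp only [Option.mem_def, Option.some.injEq] at hc
          rw [← hc]
          exact (hb j hj).1
      intro j hj
      rw [Finset.mem_coe, Finset.mem_Ico] at hj
      rw [Finset.mem_coe, Finset.mem_product, Finset.mem_product]
      exact ⟨hl j (by omega), hl (j + 1) (by omega), hP.step j (by omega)⟩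
  obtain ⟨j, hj, k, hk, hjk, he⟩ := hpig
  -- symmetric
  have key : ∀ j k, j ∈ Finset.Ico i (i + (σ - 1)) → k ∈ Finset.Ico i (i + (σ - 1)) → j < k →
      (lab j, lab (j + 1), (x j)⁻¹ * x (j + 1)) ≠ (lab k, lab (k + 1), (x k)⁻¹ * x (k + 1)) := by
    intro j k hj hk hlt he
    rw [Finset.mem_Ico] at hj hk
    simp only [Prod.mk.injEq] at he
    have h1 := hlab j k hj.1 hlt.le (by omega) he.1
    have h2 := hlab (j + 1) (k + 1) (by omega) (by omega) (by omega) he.2.1
    have h3 : ¬ Par a (x j) (x (j + 1)) := fun hpar =>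
      hP.line j (by omega) (hsl j (j + 1) hj.1 (by omega) (by omega) hpar)
    have h4 := eq_of_not_par hE.zpow_eq_one h3 h1 h2 he.2.2
    have h5 := hP.inj j (by omega) k (by omega) h4.1
    omega
  rcases lt_or_gt_of_ne hjk with h1 | h1
  · exact key j k hj hk h1 he
  · exact key k j hk hj h1 he.symm

end Pool.Agent.Helper13.FZ
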